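import Pool.Agent.H602.KS.Quarter

/-!
# Every set of integers contains a large progression-free set: all numbers of elements
-/

set_option autoImplicit false

open Finset

namespace Pool.Agent.H602.KS

open Pool.Agent.H617R3.AP

/-- an extremal set in `{0, ..., m - 1}` -/
theorem exists_opt_range {k : ℕ} (hk : 1 ≤ k) (m : ℕ) :
    ∃ A₀ : Finset ℕ, A₀ ⊆ range m ∧ APFree k A₀ ∧ A₀.card = r k m := by
  classical
  obtain ⟨A, hA1, hA2, hA3⟩ := exists_opt hk m
  have hpos : ∀ a ∈ A, 1 ≤ a ∧ a ≤ m := fun a ha => mem_Icc.1 (hA1 ha)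
  refine ⟨A.image (fun n => n - 1), ?_, ?_, ?_⟩
  · intro b hb
    rw [mem_image] at hb
    obtain ⟨a, ha, rfl⟩ := hb
    have := hpos a ha
    rw [mem_range]
    omega
  · intro a d hd h
    refine hA2 (a + 1) d hd fun i hi => ?_
    have h1 := h i hi
    rw [mem_image] at h1
    obtain ⟨b, hb, hb2⟩ := h1
    have := hpos b hb
    have e : a + 1 + i * d = b := by omega
    rw [e]
    exact hb
  · rw [card_image_of_injOn, hA3]
    intro a ha b hb h
    have h1 := hpos a ha
    have h2 := hpos b hb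
    simp only at h
    omega

section main
variable {p : ℕ} [hp : Fact p.Prime]

open Classical in
/-- the number of the points of `S` in a half cell -/
noncomputable def occ (L : ℕ) (S : Finset ℤ) (ω : ZMod p × ZMod p) (c : ℕ) : ℕ :=
  (S.filter (fun x => vl ω x ∈ cell L c)).card

open Classical in
/-- one point of each half cell -/
theorem one_each {k m L : ℕ} (hk : 3 ≤ k) (hL : 4 * m * L ≤ p) {A₀ : Finset ℕ}
    (hA : A₀ ⊆ range m) (hfree : APFree k A₀) (S : Finset ℤ) (ω : ZMod p × ZMod p) :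
    ∃ A ⊆ S, APFreeZ k A ∧ A.card = (A₀.filter (fun c => occ L S ω c ≠ 0)).card := by
  have hch : ∀ c : ℕ, ∃ x : ℤ, occ L S ω c ≠ 0 → x ∈ S ∧ vl ω x ∈ cell L c := by
    intro c
    by_cases h : occ L S ω c ≠ 0
    · unfold occ at h
      rw [card_ne_zero] at h
      obtain ⟨x, hx⟩ := h
      rw [mem_filter] at hx
      exact ⟨x, fun _ => hx⟩
    · exact ⟨0, fun h' => absurd h' h⟩
  choose f hf using hch
  set D := A₀.filter (fun c => occ L S ω c ≠ 0) with hD
  have hDm : ∀ c ∈ D, c ∈ A₀ ∧ f c ∈ S ∧ vl ω (f c) ∈ cell L c := by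
    intro c hc
    rw [hD, mem_filter] at hc
    exact ⟨hc.1, hf c hc.2⟩
  have hinj : Set.InjOn f D := by
    intro c hc c' hc' h
    have h1 := (hDm c hc).2.2
    have h2 := (hDm c' hc').2.2
    rw [h] at h1
    exact cell_unique h1 h2
  refine ⟨D.image f, ?_, ?_, card_image_of_injOn hinj⟩
  · intro x hx
    rw [mem_image] at hx
    obtain ⟨c, hc, rfl⟩ := hx
    exact (hDm c hc).2.1
  · intro a d hd hall
    have hch : ∀ i : ℕ, ∃ c : ℕ, i < k → c ∈ D ∧ f c = a + (i : ℤ) * d := by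
      intro i
      by_cases hi : i < k
      · have h1 := hall i hi
        rw [mem_image] at h1
        obtain ⟨c, hc, h2⟩ := h1
        exact ⟨c, fun _ => ⟨hc, h2⟩⟩
      · exact ⟨0, fun h => absurd h hi⟩
    choose c hc using hch
    have hcell : ∀ i < k, vl ω (a + (i : ℤ) * d) ∈ cell L (c i) := by
      intro i hi
      rw [← (hc i hi).2]
      exact (hDm _ (hc i hi).1).2.2
    have hlt : ∀ i < k, c i < m := fun i hi => mem_range.1 (hA (hDm _ (hc i hi).1).1)
    have hne : c 0 ≠ c 1 := by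
      intro he
      have h1 := (hc 0 (by omega)).2
      have h2 := (hc 1 (by omega)).2
      rw [he, h2] at h1
      push_cast at h1
      apply hd
      linarith
    have hstep : ∀ i : ℕ, i + 2 < k → c i + c (i + 2) = 2 * c (i + 1) := by
      intro i hi
      exact vl_three hL (x := a + (i : ℤ) * d) (y := a + ((i + 1 : ℕ) : ℤ) * d)
        (z := a + ((i + 2 : ℕ) : ℤ) * d) (by push_cast; ring) (hlt i (by omega))
        (hlt (i + 1) (by omega)) (hlt (i + 2) hi) (hcell i (by omega)) (hcell (i + 1) (by omega))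
        (hcell (i + 2) hi)
    have hlin : ∀ i : ℕ, i < k → (c i : ℤ) = c 0 + i * ((c 1 : ℤ) - c 0) := by
      intro i
      induction i using Nat.strong_induction_on with
      | _ i ih =>
        intro hi
        match i, ih, hi with
        | 0, _, _ => simp
        | 1, _, _ => simp
        | (j + 2), ih, hi =>
          have h1 := ih j (by omega) (by omega)
          have h2 := ih (j + 1) (by omega) (by omega)
          have h3 := hstep j hi
          have h4 : (c j : ℤ) + c (j + 2) = 2 * c (j + 1) := by exact_mod_cast h3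
          push_cast at h2 ⊢
          linear_combination h4 - h1 + 2 * h2
    rcases lt_trichotomy (c 0) (c 1) with h01 | h01 | h01
    · refine hfree (c 0) (c 1 - c 0) (by omega) fun i hi => ?_
      have h1 : c 0 + i * (c 1 - c 0) = c i := by
        have := hlin i hi
        zify [h01.le]
        linarith
      rw [h1]
      exact (hDm _ (hc i hi).1).1
    · exact hne h01
    · refine hfree (c (k - 1)) (c 0 - c 1) (by omega) fun i hi => ?_
      have h1 : c (k - 1) + i * (c 0 - c 1) = c (k - 1 - i) := by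
        have h2 := hlin (k - 1) (by omega)
        have h3 := hlin (k - 1 - i) (by omega)
        have h4 : ((k - 1 - i : ℕ) : ℤ) = ((k - 1 : ℕ) : ℤ) - i := by
          rw [Nat.cast_sub (by omega)]
        rw [h4] at h3
        zify [h01.le]
        linarith
      rw [h1]
      exact (hDm _ (hc (k - 1 - i) (by omega)).1).1

theorem sum_occ {m L : ℕ} (hL : 4 * m * L ≤ p) {c : ℕ} (hc : c < m) (S : Finset ℤ) :
    ∑ ω : ZMod p × ZMod p, occ L S ω c = S.card * (p * L) := by
  classical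
  have hG : cell L c ⊆ range p := by
    intro v hv
    rw [mem_cell] at hv
    rw [mem_range]
    have h1 : 2 * L * (c + 1) ≤ 2 * L * m := Nat.mul_le_mul_left _ hc
    have h2 : 2 * (2 * L * m) ≤ p := by
      calc 2 * (2 * L * m) = 4 * m * L := by ring
        _ ≤ p := hL
    rw [Nat.mul_add] at h1
    omega
  unfold occ
  simp_rw [card_filter]
  rw [sum_comm]
  simp_rw [← card_filter]
  rw [sum_congr rfl (fun x _ => count_one x (cell L c) hG), sum_const, smul_eq_mul, card_cell]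

theorem sum_occ_sq {m L : ℕ} (hL : 4 * m * L ≤ p) {c : ℕ} (hc : c < m) {S : Finset ℤ}
    (hS : ∀ x ∈ S, ∀ y ∈ S, x ≠ y → (x : ZMod p) ≠ (y : ZMod p)) :
    ∑ ω : ZMod p × ZMod p, (occ L S ω c) ^ 2 ≤ S.card * (p * L) + S.card * (S.card * L ^ 2) := by
  classical
  have e1 : ∀ ω : ZMod p × ZMod p, (occ L S ω c) ^ 2 =
      ∑ x ∈ S, ∑ y ∈ S, if (vl ω x ∈ cell L c ∧ vl ω y ∈ cell L c) then 1 else 0 := by
    intro ω
    unfold occ
    rw [sq, card_filter, sum_mul_sum]
    refine sum_congr rfl fun x _ => sum_congr rfl fun y _ => ?_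
    by_cases h1 : vl ω x ∈ cell L c <;> by_cases h2 : vl ω y ∈ cell L c <;> simp [h1, h2]
  simp_rw [e1]
  rw [sum_comm]
  have h1 : ∀ x ∈ S, ∑ ω : ZMod p × ZMod p, ∑ y ∈ S,
      (if (vl ω x ∈ cell L c ∧ vl ω y ∈ cell L c) then 1 else 0) ≤ p * L + S.card * L ^ 2 := by
    intro x hx
    rw [sum_comm, ← add_sum_erase _ _ hx]
    have hG : cell L c ⊆ range p := by
      intro v hv
      rw [mem_cell] at hv
      rw [mem_range]
      have h1 : 2 * L * (c + 1) ≤ 2 * L * m := Nat.mul_le_mul_left _ hc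
      have h2 : 2 * (2 * L * m) ≤ p := by
        calc 2 * (2 * L * m) = 4 * m * L := by ring
          _ ≤ p := hL
      rw [Nat.mul_add] at h1
      omega
    apply Nat.add_le_add
    · rw [← card_filter]
      have h2 := count_one (p := p) x (cell L c) hG
      rw [card_cell] at h2
      rw [← h2]
      apply card_le_card
      intro ω hω
      rw [mem_filter] at hω ⊢
      exact ⟨hω.1, hω.2.1⟩
    · have h3 : ∀ y ∈ S.erase x, ∑ ω : ZMod p × ZMod p,
          (if (vl ω x ∈ cell L c ∧ vl ω y ∈ cell L c) then 1 else 0) ≤ L ^ 2 := by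
        intro y hy
        rw [mem_erase] at hy
        rw [← card_filter]
        refine (count_two (hS x hx y hy.2 (Ne.symm hy.1)) _ _).trans ?_
        rw [card_cell, sq]
      refine (sum_le_sum h3).trans ?_
      rw [sum_const, smul_eq_mul]
      exact Nat.mul_le_mul_right _ (card_le_card (erase_subset _ _))
  refine (sum_le_sum h1).trans ?_
  rw [sum_const, smul_eq_mul, Nat.mul_add]

/-- averaging -/
theorem exists_one_each {k m L : ℕ} (hk : 3 ≤ k) (hL : 4 * m * L ≤ p) {A₀ : Finset ℕ}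
    (hA : A₀ ⊆ range m) (hfree : APFree k A₀)
    {S : Finset ℤ} (hS : ∀ x ∈ S, ∀ y ∈ S, x ≠ y → (x : ZMod p) ≠ (y : ZMod p)) :
    ∃ A ⊆ S, APFreeZ k A ∧
      (A₀.card : ℝ) * (2 * (S.card * (p * L)) - S.card * (S.card * (L : ℝ) ^ 2)) ≤
        2 * (p : ℝ) ^ 2 * A.card := by
  classical
  by_contra hcon
  push Not at hcon
  have hp0 : (0 : ℝ) < p := by exact_mod_cast hp.out.pos
  set B : ℝ := (A₀.card : ℝ) * (2 * (S.card * (p * L)) - S.card * (S.card * (L : ℝ) ^ 2)) with hB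
  have h1 : ∀ ω : ZMod p × ZMod p,
      2 * (p : ℝ) ^ 2 * ((A₀.filter (fun c => occ L S ω c ≠ 0)).card : ℝ) < B := by
    intro ω
    obtain ⟨A, h2, h3, h4⟩ := one_each hk hL hA hfree S ω
    rw [← h4]
    exact hcon A h2 h3
  have h2 : ∀ ω : ZMod p × ZMod p,
      ∑ c ∈ A₀, (3 * (occ L S ω c : ℝ) - (occ L S ω c : ℝ) ^ 2) ≤
        2 * ((A₀.filter (fun c => occ L S ω c ≠ 0)).card : ℝ) := by
    intro ω
    rw [card_filter]
    push_cast
    rw [mul_sum]
    refine sum_le_sum fun c _ => ?_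
    rcases Nat.eq_zero_or_pos (occ L S ω c) with h | h
    · rw [if_neg (by omega), h]
      simp
    · rw [if_pos (by omega)]
      rcases Nat.lt_or_ge (occ L S ω c) 3 with h3 | h3
      · have h4 : occ L S ω c = 1 ∨ occ L S ω c = 2 := by omega
        rcases h4 with h5 | h5 <;> rw [h5] <;> norm_num
      · have h6 : (3 : ℝ) ≤ occ L S ω c := by exact_mod_cast h3
        nlinarith
  have h3 : ∑ ω : ZMod p × ZMod p, 2 * (p : ℝ) ^ 2 *
      ((A₀.filter (fun c => occ L S ω c ≠ 0)).card : ℝ) < ∑ ω : ZMod p × ZMod p, B :=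
    sum_lt_sum_of_nonempty univ_nonempty fun ω _ => h1 ω
  have h4 : ∑ ω : ZMod p × ZMod p, B = (p : ℝ) ^ 2 * B := by
    rw [sum_const, card_univ, Fintype.card_prod, ZMod.card, nsmul_eq_mul]
    push_cast
    ring
  rw [h4, ← mul_sum, mul_assoc] at h3
  have h5 : B ≤ ∑ ω : ZMod p × ZMod p, 2 * ((A₀.filter (fun c => occ L S ω c ≠ 0)).card : ℝ) := by
    refine le_trans ?_ (sum_le_sum fun ω _ => h2 ω)
    rw [sum_comm]
    have h6 : ∀ c ∈ A₀, (2 * (S.card * (p * L)) - S.card * (S.card * (L : ℝ) ^ 2)) ≤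
        ∑ ω : ZMod p × ZMod p, (3 * (occ L S ω c : ℝ) - (occ L S ω c : ℝ) ^ 2) := by
      intro c hc
      have hcm := mem_range.1 (hA hc)
      have h7 : (∑ ω : ZMod p × ZMod p, (occ L S ω c : ℝ)) = S.card * (p * L) := by
        exact_mod_cast sum_occ hL hcm S
      have h8 : (∑ ω : ZMod p × ZMod p, (occ L S ω c : ℝ) ^ 2) ≤
          S.card * (p * L) + S.card * (S.card * L ^ 2) := by
        exact_mod_cast sum_occ_sq hL hcm hS
      rw [sum_sub_distrib, ← mul_sum, h7]
      linarith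
    have h9 := sum_le_sum h6
    rw [sum_const, nsmul_eq_mul] at h9
    exact h9
  rw [← mul_sum] at h5
  have h6 : (0 : ℝ) < (p : ℝ) ^ 2 := by positivity
  have h7 : (p : ℝ) ^ 2 * B ≤ (p : ℝ) ^ 2 *
      (2 * ∑ ω : ZMod p × ZMod p, ((A₀.filter (fun c => occ L S ω c ≠ 0)).card : ℝ)) :=
    mul_le_mul_of_nonneg_left h5 h6.le
  linarith

end main

/-- **All numbers of elements.** -/
theorem allZ {k : ℕ} (hk : 3 ≤ k) {m : ℕ} (hm : 1 ≤ m) (S : Finset ℤ) (hS : S.card ≤ 4 * m) :
    ∃ A ⊆ S, FreeIn k A ∧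
      (r k m : ℝ) * ((S.card : ℝ) / (4 * m)) * (1 - (S.card : ℝ) / (8 * m)) ≤ A.card := by
  obtain ⟨A₀, hA1, hA2, hA3⟩ := exists_opt_range (k := k) (by omega) m
  set N := S.card with hN
  set R := r k m with hR
  set Rg : ℕ := ∑ x ∈ S, x.natAbs with hRg
  obtain ⟨p, hp1, hp⟩ := Nat.exists_infinite_primes (32 * m ^ 2 * R * N + 2 * Rg + 1)
  have : Fact p.Prime := ⟨hp⟩
  set L : ℕ := p / (4 * m) with hL
  have hL4 : 4 * m * L ≤ p := Nat.mul_div_le p (4 * m)
  have hdist : ∀ x ∈ S, ∀ y ∈ S, x ≠ y → (x : ZMod p) ≠ (y : ZMod p) := by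
    intro x hx y hy hxy h
    rw [ZMod.intCast_eq_intCast_iff_dvd_sub] at h
    have h1 : x.natAbs ≤ Rg := single_le_sum (f := fun x : ℤ => x.natAbs) (fun _ _ => Nat.zero_le _) hx
    have h2 : y.natAbs ≤ Rg := single_le_sum (f := fun x : ℤ => x.natAbs) (fun _ _ => Nat.zero_le _) hy
    have h3 : y - x = 0 := by
      apply Int.eq_zero_of_abs_lt_dvd h
      rw [abs_lt]
      omega
    exact hxy (by omega)
  obtain ⟨A, hAS, hAf, hcard⟩ := exists_one_each (p := p) hk hL4 hA1 hA2 hdist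
  refine ⟨A, hAS, free_iff.2 hAf, ?_⟩
  rw [hA3] at hcard
  -- real numbers
  have hm0 : (0 : ℝ) < m := by exact_mod_cast hm
  have hp0 : (0 : ℝ) < p := by exact_mod_cast hp.pos
  have hx1 : (p : ℝ) / (4 * m) - 1 ≤ L := by
    have h1 := Nat.lt_div_mul_add (a := p) (b := 4 * m) (by omega)
    have h2 : (p : ℝ) < L * (4 * m) + 4 * m := by rw [hL]; exact_mod_cast h1
    rw [sub_le_iff_le_add, div_le_iff₀ (by positivity)]
    linarith
  have hx2 : (L : ℝ) ≤ p / (4 * m) := by
    rw [le_div_iff₀ (by positivity), mul_comm]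
    exact_mod_cast hL4
  set l : ℝ := N * (L / p) with hl
  set l₀ : ℝ := N / (4 * m) with hl₀
  have hN0 : (0 : ℝ) ≤ N := Nat.cast_nonneg _
  have hR0 : (0 : ℝ) ≤ R := Nat.cast_nonneg _
  have hl1 : l ≤ l₀ := by
    have : (L : ℝ) / p ≤ 1 / (4 * m) := by
      rw [div_le_iff₀ hp0]
      refine hx2.trans (le_of_eq (by ring))
    calc l ≤ N * (1 / (4 * m)) := mul_le_mul_of_nonneg_left this hN0
      _ = l₀ := by rw [hl₀]; ring
  have hl2 : l₀ - N / p ≤ l := by
    have : 1 / (4 * (m : ℝ)) - 1 / p ≤ L / p := by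
      rw [le_div_iff₀ hp0]
      have : (1 / (4 * (m : ℝ)) - 1 / p) * p = p / (4 * m) - 1 := by field_simp
      rw [this]
      exact hx1
    calc l₀ - N / p = N * (1 / (4 * (m : ℝ)) - 1 / p) := by rw [hl₀]; ring
      _ ≤ l := mul_le_mul_of_nonneg_left this hN0
  have hl3 : l₀ ≤ 1 := by
    rw [hl₀, div_le_one (by positivity)]
    exact_mod_cast hS
  have hl0 : 0 ≤ l := by positivity
  have hcard2 : (R : ℝ) * (l - l ^ 2 / 2) ≤ A.card := by
    have e : (R : ℝ) * (2 * (N * (p * L)) - N * (N * (L : ℝ) ^ 2)) =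
        2 * (p : ℝ) ^ 2 * (R * (l - l ^ 2 / 2)) := by
      rw [hl]
      field_simp
    rw [e] at hcard
    have : (0 : ℝ) < 2 * (p : ℝ) ^ 2 := by positivity
    exact le_of_mul_le_mul_left hcard this
  have hf : l₀ - l₀ ^ 2 / 2 - N / p ≤ l - l ^ 2 / 2 := by nlinarith
  have hmain : (R : ℝ) * (l₀ - l₀ ^ 2 / 2) - R * N / p ≤ A.card := by
    have h1 := mul_le_mul_of_nonneg_left hf hR0
    have h2 : (R : ℝ) * (l₀ - l₀ ^ 2 / 2 - N / p) = R * (l₀ - l₀ ^ 2 / 2) - R * N / p := by ring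
    linarith
  -- integrality
  have hZ : (32 * (m : ℝ) ^ 2) * (R * (l₀ - l₀ ^ 2 / 2)) = R * (8 * m * N - N ^ 2) := by
    rw [hl₀]
    field_simp
    ring
  have hsmall : (32 * (m : ℝ) ^ 2) * (R * N / p) < 1 := by
    rw [← mul_div_assoc, div_lt_one hp0]
    have : ((32 * m ^ 2 * R * N : ℕ) : ℝ) < p := by
      exact_mod_cast (by omega : 32 * m ^ 2 * R * N < p)
    push_cast at this
    linarith
  have hm2 : (0 : ℝ) < 32 * (m : ℝ) ^ 2 := by positivity
  have h1 := mul_le_mul_of_nonneg_left hmain hm2.le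
  rw [mul_sub, hZ] at h1
  have h2 : (R : ℝ) * (8 * m * N - N ^ 2) < 32 * (m : ℝ) ^ 2 * A.card + 1 := by linarith
  have h3 : (R : ℤ) * (8 * m * N - N ^ 2) < 32 * (m : ℤ) ^ 2 * A.card + 1 := by exact_mod_cast h2
  have h4 : (R : ℤ) * (8 * m * N - N ^ 2) ≤ 32 * (m : ℤ) ^ 2 * A.card := by omega
  have h5 : (R : ℝ) * (8 * m * N - N ^ 2) ≤ 32 * (m : ℝ) ^ 2 * A.card := by exact_mod_cast h4
  rw [← hZ] at h5
  have h6 := le_of_mul_le_mul_left h5 hm2
  refine le_trans (le_of_eq ?_) h6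
  rw [hl₀]
  ring

/-- the same in torsion-free groups -/
theorem allG {k : ℕ} (hk : 3 ≤ k) {m : ℕ} (hm : 1 ≤ m) {G : Type*} [AddCommGroup G]
    (htf : ∀ (n : ℕ) (x : G), n ≠ 0 → n • x = 0 → x = 0) (S : Finset G) (hS : S.card ≤ 4 * m) :
    ∃ A ⊆ S, FreeIn k A ∧
      (r k m : ℝ) * ((S.card : ℝ) / (4 * m)) * (1 - (S.card : ℝ) / (8 * m)) ≤ A.card := by
  classical
  obtain ⟨φ, hadd, hinj⟩ := exists_hom htf S
  have hcard : (S.image φ).card = S.card :=
    card_image_of_injOn (fun x hx y hy h => hinj x hx y hy h)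
  obtain ⟨A', hA1, hA2, hA3⟩ := allZ hk hm (S.image φ) (by rw [hcard]; exact hS)
  rw [hcard] at hA3
  refine ⟨S.filter (fun x => φ x ∈ A'), filter_subset _ _, free_preimage (by omega) hadd hinj hA2, ?_⟩
  refine hA3.trans ?_
  have h1 : A' ⊆ (S.filter (fun x => φ x ∈ A')).image φ := by
    intro n hn
    obtain ⟨x, hx, rfl⟩ := mem_image.1 (hA1 hn)
    exact mem_image_of_mem _ (mem_filter.2 ⟨hx, hn⟩)
  exact_mod_cast (card_le_card h1).trans card_image_le

end Pool.Agent.H602.KS
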