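import Pool.Agent.H602.KS.Shrink

/-!
# Sets of integers of small doubling are isomorphic to dense subsets of intervals: the theorem
-/

set_option autoImplicit false

open Finset
open scoped Pointwise

namespace Pool.Agent.H602.KS

/-- the length of the interval, divided by the number of elements -/
noncomputable def len (K : ℝ) : ℝ := Real.exp (100000000000 * (2 * K) ^ (30000 : ℝ))

theorem boxes_le {K : ℝ} (hK : 1 ≤ K) {r : ℕ} {L : Fin r → ℕ} {T : Finset ℤ} {n : ℕ}
    (hr : (r : ℝ) ≤ 30000 * Real.log (2 * K))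
    (hv : ((∏ i, (2 * L i + 1) : ℕ) : ℝ) ≤ vol K * n) (hT : (T.card : ℝ) ≤ (2 * K) ^ (30000 : ℝ)) :
    (((∏ i, side r (L i)) * 33 ^ T.card : ℕ) : ℝ) ≤ len K * n := by
  have h2K : 2 ≤ 2 * K := by linarith
  have hlog0 : 0 ≤ Real.log (2 * K) := Real.log_nonneg (by linarith)
  have hlog : Real.log (2 * K) ≤ 2 * K := (Real.log_le_sub_one_of_pos (by linarith)).trans (by linarith)
  set W : ℝ := (2 * K) ^ (30000 : ℝ) with hW
  have hsq : Real.log (2 * K) ^ 2 ≤ W := by
    have h1 : Real.log (2 * K) ^ 2 ≤ (2 * K) ^ 2 := pow_le_pow_left₀ hlog0 hlog 2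
    refine h1.trans ?_
    rw [hW, ← Real.rpow_natCast]
    exact Real.rpow_le_rpow_of_exponent_le (by linarith) (by norm_num)
  have hprod : ((∏ i, side r (L i) : ℕ) : ℝ) = (32 * (r : ℝ)) ^ r * ((∏ i, (2 * L i + 1) : ℕ) : ℝ) := by
    unfold side
    rw [prod_mul_distrib, prod_const, card_univ, Fintype.card_fin]
    push_cast
    ring
  have h1 : (32 * (r : ℝ)) ^ r ≤ Real.exp (28800000000 * W) := by
    have h2 : (32 * (r : ℝ)) ≤ Real.exp (32 * r) := by
      have := Real.add_one_le_exp (32 * (r : ℝ))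
      linarith
    have h3 : (32 * (r : ℝ)) ^ r ≤ Real.exp (32 * r) ^ r :=
      pow_le_pow_left₀ (by positivity) h2 r
    refine h3.trans ?_
    rw [← Real.exp_nat_mul]
    apply Real.exp_le_exp.2
    have h4 : (r : ℝ) * (32 * r) = 32 * (r : ℝ) ^ 2 := by ring
    rw [h4]
    have h5 : (r : ℝ) ^ 2 ≤ (30000 * Real.log (2 * K)) ^ 2 :=
      pow_le_pow_left₀ (Nat.cast_nonneg r) hr 2
    calc 32 * (r : ℝ) ^ 2 ≤ 32 * (30000 * Real.log (2 * K)) ^ 2 := by linarith
      _ = 28800000000 * Real.log (2 * K) ^ 2 := by ring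
      _ ≤ 28800000000 * W := by linarith
  have h2 : (33 : ℝ) ^ T.card ≤ Real.exp (4 * W) := by
    have h3 : (33 : ℝ) ≤ Real.exp 4 := by
      have h4 := Real.exp_one_gt_d9
      have h5 : Real.exp 4 = Real.exp 1 ^ 4 := by
        rw [← Real.exp_nat_mul]
        norm_num
      rw [h5]
      have h6 : (2.7 : ℝ) ^ 4 ≤ Real.exp 1 ^ 4 := pow_le_pow_left₀ (by norm_num) (by linarith) 4
      refine le_trans ?_ h6
      norm_num
    have h4 : (33 : ℝ) ^ T.card ≤ Real.exp 4 ^ T.card := pow_le_pow_left₀ (by norm_num) h3 _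
    refine h4.trans ?_
    rw [← Real.exp_nat_mul]
    apply Real.exp_le_exp.2
    linarith
  have h3 : vol K ≤ Real.exp (4000000 * W) := by
    unfold vol
    apply Real.exp_le_exp.2
    linarith
  have hn : (0 : ℝ) ≤ n := Nat.cast_nonneg n
  rw [Nat.cast_mul, hprod]
  push_cast at hv ⊢
  have h4 : (∏ i, (2 * (L i : ℝ) + 1)) ≤ Real.exp (4000000 * W) * n :=
    hv.trans (mul_le_mul_of_nonneg_right h3 hn)
  have h5 : 0 ≤ ∏ i, (2 * (L i : ℝ) + 1) := prod_nonneg fun i _ => by positivity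
  have hW0 : 0 ≤ W := by positivity
  calc (32 * (r : ℝ)) ^ r * (∏ i, (2 * (L i : ℝ) + 1)) * 33 ^ T.card
      ≤ Real.exp (28800000000 * W) * (Real.exp (4000000 * W) * n) * Real.exp (4 * W) := by
        apply mul_le_mul (mul_le_mul h1 h4 h5 (Real.exp_pos _).le) h2 (by positivity)
          (by positivity)
    _ = Real.exp (28800000000 * W + 4000000 * W + 4 * W) * n := by
        rw [Real.exp_add, Real.exp_add]
        ring
    _ ≤ len K * n := by
        apply mul_le_mul_of_nonneg_right _ hn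
        unfold len
        apply Real.exp_le_exp.2
        linarith

/-- **A set of integers of small doubling is Freiman isomorphic, of order two, to a dense subset of an
interval.** -/
theorem compress {K : ℝ} {S : Finset ℤ} (hS : S.Nonempty) (hK : ((S + S).card : ℝ) ≤ K * S.card) :
    ∃ φ : ℤ → ℤ, Iso2 S φ ∧ ∀ a ∈ S, 0 ≤ φ a ∧ (φ a : ℝ) < len K * S.card := by
  classical
  have hSpos : (0 : ℝ) < S.card := by exact_mod_cast hS.card_pos
  have hK1 : 1 ≤ K := by
    have h1 : (S.card : ℝ) ≤ (S + S).card := by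
      exact_mod_cast Finset.card_le_card_add_right hS
    by_contra hcon
    push Not at hcon
    nlinarith
  have hex : ∃ l : ℕ, ∃ φ : ℤ → ℤ, Iso2 S φ ∧ ∀ a ∈ S, 0 ≤ φ a ∧ φ a ≤ l := by
    set Rg : ℕ := ∑ x ∈ S, x.natAbs with hRg
    refine ⟨2 * Rg, fun x => x + Rg, ?_, ?_⟩
    · intro a _ b _ c _ d _
      constructor <;> intro h <;> simp only at * <;> omega
    · intro a ha
      have h1 : a.natAbs ≤ Rg := single_le_sum (f := fun x : ℤ => x.natAbs) (fun _ _ => Nat.zero_le _) ha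
      simp only
      push_cast
      omega
  obtain ⟨φ, hφ, hb⟩ := Nat.find_spec hex
  set l := Nat.find hex with hl
  refine ⟨φ, hφ, fun a ha => ⟨(hb a ha).1, ?_⟩⟩
  have hal : (φ a : ℝ) ≤ l := by exact_mod_cast (hb a ha).2
  refine lt_of_le_of_lt hal ?_
  have hlen : 0 < len K * S.card := mul_pos (Real.exp_pos _) hSpos
  rcases Nat.eq_zero_or_pos l with h0 | h0
  · rw [h0]
    simpa using hlen
  -- the image
  have hS' : (S.image φ).Nonempty := hS.image φ
  have hc' : (S.image φ).card = S.card := hφ.card_image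
  have hK' : ((S.image φ + S.image φ).card : ℝ) ≤ K * (S.image φ).card := by
    rw [hc']
    refine le_trans ?_ hK
    exact_mod_cast hφ.card_sum
  obtain ⟨r, v, L, T, hr, hv, hT, hcov⟩ := cover hS' hK'
  rw [hc'] at hv
  have hbox := boxes_le hK1 hr hv hT
  refine lt_of_lt_of_le ?_ hbox
  by_contra hcon
  push Not at hcon
  have hcon' : (∏ i, side r (L i)) * 33 ^ T.card ≤ l := by exact_mod_cast hcon
  obtain ⟨p, hp, hp1, hp2⟩ := Nat.exists_prime_lt_and_le_two_mul (4 * l) (by omega)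
  obtain ⟨ψ, hψ, hψb⟩ := shrink hp (S := S.image φ) (l := l) (by
    intro x hx
    obtain ⟨y, hy, rfl⟩ := mem_image.1 hx
    exact hb y hy) (by omega) v L T hcov (by omega)
  have hnew : ∃ φ' : ℤ → ℤ, Iso2 S φ' ∧ ∀ a ∈ S, 0 ≤ φ' a ∧ φ' a ≤ ((l - 1 : ℕ) : ℤ) := by
    refine ⟨fun x => ψ (φ x) + ((l - 1) / 2 : ℕ), ?_, ?_⟩
    · intro a ha b hb' c hc d hd
      have h1 := (hφ.comp hψ) a ha b hb' c hc d hd
      simp only [Function.comp] at h1
      rw [h1]
      constructor <;> intro h <;> simp only at * <;> omega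
    · intro a ha
      have h1 := hψb (φ a) (mem_image_of_mem _ ha)
      have h2 := abs_le.1 (le_refl |ψ (φ a)|)
      simp only
      push_cast
      omega
  have := Nat.find_min' hex hnew
  omega

end Pool.Agent.H602.KS
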