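import Pool.Graph.R_seed8.H617R3.AP.Wide

/-!
# Dilations modulo a prime number: progression-free subsets of arbitrary sets of integers
-/

set_option autoImplicit false

open Finset

namespace Pool.Agent.H602.KS

open Pool.Agent.H617R3.AP

/-- `A` contains no arithmetic progression `a, a + d, ..., a + (k - 1) d` with `d ≠ 0`. -/
def APFreeZ (k : ℕ) (A : Finset ℤ) : Prop :=
  ∀ a d : ℤ, d ≠ 0 → ¬ ∀ i < k, a + (i : ℤ) * d ∈ A

section count
variable {p : ℕ} [hp : Fact p.Prime]

/-- the value at `x` of the random map -/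
def vl (ω : ZMod p × ZMod p) (x : ℤ) : ℕ := (ω.1 * (x : ZMod p) + ω.2).val

theorem vl_lt (ω : ZMod p × ZMod p) (x : ℤ) : vl ω x < p := ZMod.val_lt _

/-- one point is uniformly distributed -/
theorem count_one (x : ℤ) (G : Finset ℕ) (hG : G ⊆ range p) :
    (univ.filter (fun ω : ZMod p × ZMod p => vl ω x ∈ G)).card = p * G.card := by
  classical
  have h1 : (univ.filter (fun ω : ZMod p × ZMod p => vl ω x ∈ G)).card =
      ((univ : Finset (ZMod p)) ×ˢ G).card := by
    refine card_bij (fun ω _ => (ω.1, vl ω x)) ?_ ?_ ?_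
    · intro ω hω
      rw [mem_filter] at hω
      rw [mem_product]
      exact ⟨mem_univ _, hω.2⟩
    · rintro ⟨t, b⟩ _ ⟨t', b'⟩ _ h
      simp only [Prod.mk.injEq, vl] at h
      obtain ⟨h2, h3⟩ := h
      subst h2
      have h4 := ZMod.val_injective p h3
      rw [add_left_cancel h4]
    · rintro ⟨t, v⟩ hv
      rw [mem_product] at hv
      have hvp : v < p := by
        have := hG hv.2
        rwa [mem_range] at this
      refine ⟨(t, (v : ZMod p) - t * (x : ZMod p)), ?_, ?_⟩
      · rw [mem_filter]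
        refine ⟨mem_univ _, ?_⟩
        simp only [vl]
        rw [show t * (x : ZMod p) + ((v : ZMod p) - t * (x : ZMod p)) = (v : ZMod p) by ring,
          ZMod.val_natCast_of_lt hvp]
        exact hv.2
      · simp only [vl, Prod.mk.injEq, true_and]
        rw [show t * (x : ZMod p) + ((v : ZMod p) - t * (x : ZMod p)) = (v : ZMod p) by ring,
          ZMod.val_natCast_of_lt hvp]
  rw [h1, card_product, card_univ, ZMod.card]

/-- two points are independent -/
theorem count_two {x y : ℤ} (hxy : (x : ZMod p) ≠ (y : ZMod p)) (G H : Finset ℕ) :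
    (univ.filter (fun ω : ZMod p × ZMod p => vl ω x ∈ G ∧ vl ω y ∈ H)).card ≤ G.card * H.card := by
  classical
  rw [← card_product]
  refine card_le_card_of_injOn (fun ω => (vl ω x, vl ω y)) ?_ ?_
  · intro ω hω
    rw [mem_coe, mem_filter] at hω
    rw [mem_coe, mem_product]
    exact hω.2
  · rintro ⟨t, b⟩ _ ⟨t', b'⟩ _ h
    simp only [Prod.mk.injEq, vl] at h
    obtain ⟨h1, h2⟩ := h
    have h3 := ZMod.val_injective p h1
    have h4 := ZMod.val_injective p h2
    have h5 : (t - t') * ((x : ZMod p) - (y : ZMod p)) = 0 := by linear_combination h3 - h4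
    rcases mul_eq_zero.1 h5 with h6 | h6
    · have h7 : t = t' := sub_eq_zero.1 h6
      subst h7
      rw [add_left_cancel h3]
    · exact absurd (sub_eq_zero.1 h6) hxy

end count

/-- the half cells -/
def cell (L c : ℕ) : Finset ℕ := Ico (2 * L * c) (2 * L * c + L)

theorem mem_cell {L c v : ℕ} : v ∈ cell L c ↔ 2 * L * c ≤ v ∧ v < 2 * L * c + L := by
  unfold cell
  rw [mem_Ico]

theorem card_cell (L c : ℕ) : (cell L c).card = L := by
  unfold cell
  rw [Nat.card_Ico]
  omega

theorem cell_unique {L c c' v : ℕ} (h : v ∈ cell L c) (h' : v ∈ cell L c') : c = c' := by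
  rw [mem_cell] at h h'
  rcases lt_trichotomy c c' with h1 | h1 | h1
  · have : 2 * L * (c + 1) ≤ 2 * L * c' := Nat.mul_le_mul_left _ h1
    rw [Nat.mul_add] at this
    omega
  · exact h1
  · have : 2 * L * (c' + 1) ≤ 2 * L * c := Nat.mul_le_mul_left _ h1
    rw [Nat.mul_add] at this
    omega

/-- the union of the half cells -/
def cells (L : ℕ) (A₀ : Finset ℕ) : Finset ℕ := A₀.biUnion (cell L)

theorem card_cells (L : ℕ) (A₀ : Finset ℕ) : (cells L A₀).card = A₀.card * L := by
  unfold cells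
  rw [card_biUnion]
  · simp [card_cell]
  · intro c _ c' _ hne
    rw [Function.onFun, disjoint_left]
    intro v h1 h2
    exact hne (cell_unique h1 h2)

section main
variable {p : ℕ} [hp : Fact p.Prime]

open Classical in
/-- the chosen subset of `S`: the points which are alone in a half cell of `A₀` -/
noncomputable def pick (L : ℕ) (A₀ : Finset ℕ) (S : Finset ℤ) (ω : ZMod p × ZMod p) : Finset ℤ :=
  S.filter (fun x => ∃ c ∈ A₀, vl ω x ∈ cell L c ∧ ∀ y ∈ S, y ≠ x → vl ω y ∉ cell L c)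

theorem vl_three {m L : ℕ} (hL : 4 * m * L ≤ p) {ω : ZMod p × ZMod p} {x y z : ℤ}
    (h : x + z = 2 * y) {a b c : ℕ} (ha : a < m) (hb : b < m) (hc : c < m)
    (hx : vl ω x ∈ cell L a) (hy : vl ω y ∈ cell L b) (hz : vl ω z ∈ cell L c) :
    a + c = 2 * b := by
  rw [mem_cell] at hx hy hz
  have e : ((vl ω x + vl ω z : ℕ) : ZMod p) = ((2 * vl ω y : ℕ) : ZMod p) := by
    unfold vl
    push_cast
    rw [ZMod.natCast_zmod_val, ZMod.natCast_zmod_val, ZMod.natCast_zmod_val]
    have h1 : ((x : ZMod p) + (z : ZMod p)) = 2 * (y : ZMod p) := by exact_mod_cast congrArg (Int.cast : ℤ → ZMod p) h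
    linear_combination ω.1 * h1
  have hbd : ∀ {u v : ℕ}, u < m → v < 2 * L * u + L → 2 * v < p := by
    intro u v hu hv
    have h1 : 2 * L * (u + 1) ≤ 2 * L * m := Nat.mul_le_mul_left _ hu
    have h2 : 2 * (2 * L * m) ≤ p := by
      calc 2 * (2 * L * m) = 4 * m * L := by ring
        _ ≤ p := hL
    rw [Nat.mul_add] at h1
    omega
  have bx := hbd ha hx.2
  have by' := hbd hb hy.2
  have bz := hbd hc hz.2
  have e2 : vl ω x + vl ω z = 2 * vl ω y := by
    rw [ZMod.natCast_eq_natCast_iff] at e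
    exact Nat.ModEq.eq_of_lt_of_lt e (by omega) (by omega)
  by_contra hne
  rcases Nat.lt_or_ge (a + c) (2 * b) with h1 | h1
  · have h2 : 2 * L * (a + c + 1) ≤ 2 * L * (2 * b) := Nat.mul_le_mul_left _ h1
    have e3 : 2 * L * (a + c + 1) = 2 * L * a + 2 * L * c + 2 * L := by ring
    have e4 : 2 * L * (2 * b) = 2 * (2 * L * b) := by ring
    omega
  · have h3 : 2 * b < a + c := by omega
    have h2 : 2 * L * (2 * b + 1) ≤ 2 * L * (a + c) := Nat.mul_le_mul_left _ h3
    have e3 : 2 * L * (a + c) = 2 * L * a + 2 * L * c := by ring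
    have e4 : 2 * L * (2 * b + 1) = 2 * (2 * L * b) + 2 * L := by ring
    omega

theorem pick_free {k m L : ℕ} (hk : 3 ≤ k) (hL : 4 * m * L ≤ p) {A₀ : Finset ℕ}
    (hA : A₀ ⊆ range m) (hfree : APFree k A₀) (S : Finset ℤ) (ω : ZMod p × ZMod p) :
    APFreeZ k (pick L A₀ S ω) := by
  classical
  intro a d hd hall
  have hmem : ∀ i < k, a + (i : ℤ) * d ∈ S ∧ ∃ c ∈ A₀, vl ω (a + (i : ℤ) * d) ∈ cell L c ∧
      ∀ y ∈ S, y ≠ a + (i : ℤ) * d → vl ω y ∉ cell L c := by
    intro i hi
    have := hall i hi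
    unfold pick at this
    rwa [mem_filter] at this
  have hch : ∀ i : ℕ, ∃ c : ℕ, i < k → c ∈ A₀ ∧ vl ω (a + (i : ℤ) * d) ∈ cell L c ∧
      ∀ y ∈ S, y ≠ a + (i : ℤ) * d → vl ω y ∉ cell L c := by
    intro i
    by_cases hi : i < k
    · obtain ⟨-, c, h1, h2, h3⟩ := hmem i hi
      exact ⟨c, fun _ => ⟨h1, h2, h3⟩⟩
    · exact ⟨0, fun h => absurd h hi⟩
  choose c hc using hch
  have hlt : ∀ i < k, c i < m := fun i hi => mem_range.1 (hA (hc i hi).1)
  have hne : ∀ i j : ℕ, i < k → j < k → i ≠ j → c i ≠ c j := by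
    intro i j hi hj hij he
    have h1 := (hc i hi).2.2 (a + (j : ℤ) * d) (hmem j hj).1 (by
      intro h
      have h2 : ((j : ℤ) - i) * d = 0 := by linear_combination h
      rcases mul_eq_zero.1 h2 with h3 | h3
      · exact hij (by omega)
      · exact hd h3)
    rw [he] at h1
    exact h1 (hc j hj).2.1
  have hstep : ∀ i : ℕ, i + 2 < k → c i + c (i + 2) = 2 * c (i + 1) := by
    intro i hi
    refine vl_three hL (x := a + (i : ℤ) * d) (y := a + ((i + 1 : ℕ) : ℤ) * d)
      (z := a + ((i + 2 : ℕ) : ℤ) * d) (by push_cast; ring) (hlt i (by omega)) (hlt (i + 1) (by omega))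
      (hlt (i + 2) hi) (hc i (by omega)).2.1 (hc (i + 1) (by omega)).2.1 (hc (i + 2) hi).2.1
  -- the cells form a progression
  have hlin : ∀ i : ℕ, i < k → (c i : ℤ) = c 0 + i * ((c 1 : ℤ) - c 0) := by
    intro i
    induction i using Nat.strong_induction_on with
    | _ i ih =>
      intro hi
      match i, ih, hi with
      | 0, _, _ => simp
      | 1, _, _ => simp
      | (j + 2), ih, hi =>
        have h1 := ih j (by omega) (by omega)
        have h2 := ih (j + 1) (by omega) (by omega)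
        have h3 := hstep j hi
        have h4 : (c j : ℤ) + c (j + 2) = 2 * c (j + 1) := by exact_mod_cast h3
        push_cast at h2 ⊢
        linear_combination h4 - h1 + 2 * h2
  rcases lt_trichotomy (c 0) (c 1) with h01 | h01 | h01
  · refine hfree (c 0) (c 1 - c 0) (by omega) fun i hi => ?_
    have h1 : c 0 + i * (c 1 - c 0) = c i := by
      have := hlin i hi
      zify [h01.le]
      linarith
    rw [h1]
    exact (hc i hi).1
  · exact hne 0 1 (by omega) (by omega) (by omega) h01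
  · refine hfree (c (k - 1)) (c 0 - c 1) (by omega) fun i hi => ?_
    have h1 : c (k - 1) + i * (c 0 - c 1) = c (k - 1 - i) := by
      have h2 := hlin (k - 1) (by omega)
      have h3 := hlin (k - 1 - i) (by omega)
      have h4 : ((k - 1 - i : ℕ) : ℤ) = ((k - 1 : ℕ) : ℤ) - i := by
        rw [Nat.cast_sub (by omega)]
      rw [h4] at h3
      zify [h01.le]
      linarith
    rw [h1]
    exact (hc (k - 1 - i) (by omega)).1

/-- a point is chosen with the right probability -/
theorem prob {m L : ℕ} (hL : 4 * m * L ≤ p) {A₀ : Finset ℕ} (hA : A₀ ⊆ range m)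
    {S : Finset ℤ} (hS : ∀ x ∈ S, ∀ y ∈ S, x ≠ y → (x : ZMod p) ≠ (y : ZMod p)) {x : ℤ} (hx : x ∈ S) :
    (p : ℝ) * (A₀.card * L) - S.card * (A₀.card * (L : ℝ) ^ 2) ≤
      ((univ.filter (fun ω : ZMod p × ZMod p => x ∈ pick L A₀ S ω)).card : ℝ) := by
  classical
  have hG : cells L A₀ ⊆ range p := by
    intro v hv
    unfold cells at hv
    rw [mem_biUnion] at hv
    obtain ⟨c, hc, hv⟩ := hv
    rw [mem_cell] at hv
    rw [mem_range]
    have h0 : c < m := mem_range.1 (hA hc)
    have h1 : 2 * L * (c + 1) ≤ 2 * L * m := Nat.mul_le_mul_left _ h0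
    have h2 : 2 * (2 * L * m) ≤ p := by
      calc 2 * (2 * L * m) = 4 * m * L := by ring
        _ ≤ p := hL
    rw [Nat.mul_add] at h1
    omega
  have h1 := count_one (p := p) x (cells L A₀) hG
  rw [card_cells] at h1
  have hsub : univ.filter (fun ω : ZMod p × ZMod p => vl ω x ∈ cells L A₀) ⊆
      univ.filter (fun ω : ZMod p × ZMod p => x ∈ pick L A₀ S ω) ∪
        (S.erase x).biUnion (fun y => A₀.biUnion (fun c =>
          univ.filter (fun ω : ZMod p × ZMod p => vl ω x ∈ cell L c ∧ vl ω y ∈ cell L c))) := by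
    intro ω hω
    rw [mem_filter] at hω
    have h2 := hω.2
    unfold cells at h2
    rw [mem_biUnion] at h2
    obtain ⟨c, hc, hv⟩ := h2
    rw [mem_union]
    by_cases hall : ∀ y ∈ S, y ≠ x → vl ω y ∉ cell L c
    · left
      rw [mem_filter]
      refine ⟨mem_univ _, ?_⟩
      unfold pick
      rw [mem_filter]
      exact ⟨hx, c, hc, hv, hall⟩
    · right
      push Not at hall
      obtain ⟨y, hy, hyx, hvy⟩ := hall
      rw [mem_biUnion]
      refine ⟨y, mem_erase.2 ⟨hyx, hy⟩, ?_⟩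
      rw [mem_biUnion]
      refine ⟨c, hc, ?_⟩
      rw [mem_filter]
      exact ⟨mem_univ _, hv, hvy⟩
  have h3 := (card_le_card hsub).trans (card_union_le _ _)
  have h4 : ((S.erase x).biUnion (fun y => A₀.biUnion (fun c =>
      univ.filter (fun ω : ZMod p × ZMod p => vl ω x ∈ cell L c ∧ vl ω y ∈ cell L c)))).card ≤
      S.card * (A₀.card * L ^ 2) := by
    refine card_biUnion_le.trans ?_
    have h5 : ∀ y ∈ S.erase x, (A₀.biUnion (fun c =>
        univ.filter (fun ω : ZMod p × ZMod p => vl ω x ∈ cell L c ∧ vl ω y ∈ cell L c))).card ≤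
        A₀.card * L ^ 2 := by
      intro y hy
      rw [mem_erase] at hy
      refine card_biUnion_le.trans ?_
      have h6 : ∀ c ∈ A₀, (univ.filter (fun ω : ZMod p × ZMod p =>
          vl ω x ∈ cell L c ∧ vl ω y ∈ cell L c)).card ≤ L ^ 2 := by
        intro c _
        refine (count_two (hS x hx y hy.2 (Ne.symm hy.1)) _ _).trans ?_
        rw [card_cell, sq]
      refine (sum_le_sum h6).trans ?_
      rw [sum_const, smul_eq_mul]
    refine (sum_le_sum h5).trans ?_
    rw [sum_const, smul_eq_mul]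
    exact Nat.mul_le_mul_right _ (card_le_card (erase_subset _ _))
  have h7 : p * (A₀.card * L) ≤ (univ.filter (fun ω : ZMod p × ZMod p =>
      x ∈ pick L A₀ S ω)).card + S.card * (A₀.card * L ^ 2) := by
    rw [h1] at h3
    omega
  have h8 : (p : ℝ) * (A₀.card * L) ≤ ((univ.filter (fun ω : ZMod p × ZMod p =>
      x ∈ pick L A₀ S ω)).card : ℝ) + S.card * (A₀.card * (L : ℝ) ^ 2) := by exact_mod_cast h7
  linarith

/-- averaging -/
theorem exists_pick {k m L : ℕ} (hk : 3 ≤ k) (hL : 4 * m * L ≤ p) {A₀ : Finset ℕ}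
    (hA : A₀ ⊆ range m) (hfree : APFree k A₀)
    {S : Finset ℤ} (hS : ∀ x ∈ S, ∀ y ∈ S, x ≠ y → (x : ZMod p) ≠ (y : ZMod p)) (w : ℤ → ℝ)
    (hw : ∀ x, 0 ≤ w x) :
    ∃ A ⊆ S, APFreeZ k A ∧
      ((p : ℝ) * (A₀.card * L) - S.card * (A₀.card * (L : ℝ) ^ 2)) / (p : ℝ) ^ 2 * ∑ x ∈ S, w x ≤
        ∑ x ∈ A, w x := by
  classical
  by_contra hcon
  push Not at hcon
  have hp0 : (0 : ℝ) < p := by exact_mod_cast hp.out.pos
  set B : ℝ := (p : ℝ) * (A₀.card * L) - S.card * (A₀.card * (L : ℝ) ^ 2) with hB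
  have h1 : ∑ ω : ZMod p × ZMod p, ∑ x ∈ pick L A₀ S ω, w x <
      ∑ ω : ZMod p × ZMod p, B / (p : ℝ) ^ 2 * ∑ x ∈ S, w x := by
    refine sum_lt_sum_of_nonempty univ_nonempty fun ω _ => ?_
    refine hcon _ ?_ (pick_free hk hL hA hfree S ω)
    unfold pick
    exact filter_subset _ _
  have h2 : ∑ ω : ZMod p × ZMod p, B / (p : ℝ) ^ 2 * ∑ x ∈ S, w x = B * ∑ x ∈ S, w x := by
    rw [sum_const, card_univ, Fintype.card_prod, ZMod.card, nsmul_eq_mul]
    push_cast
    field_simp
  have h3 : ∑ ω : ZMod p × ZMod p, ∑ x ∈ pick L A₀ S ω, w x =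
      ∑ x ∈ S, ((univ.filter (fun ω : ZMod p × ZMod p => x ∈ pick L A₀ S ω)).card : ℝ) * w x := by
    have h4 : ∀ ω : ZMod p × ZMod p, ∑ x ∈ pick L A₀ S ω, w x =
        ∑ x ∈ S, if x ∈ pick L A₀ S ω then w x else 0 := by
      intro ω
      rw [← sum_filter]
      apply sum_congr _ fun _ _ => rfl
      ext x
      rw [mem_filter]
      constructor
      · intro hx
        refine ⟨?_, hx⟩
        unfold pick at hx
        exact (mem_filter.1 hx).1
      · exact fun hx => hx.2
    simp_rw [h4]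
    rw [sum_comm]
    refine sum_congr rfl fun x _ => ?_
    rw [← sum_filter, sum_const, nsmul_eq_mul]
  rw [h2, h3, mul_sum] at h1
  have h5 : ∑ x ∈ S, B * w x ≤
      ∑ x ∈ S, ((univ.filter (fun ω : ZMod p × ZMod p => x ∈ pick L A₀ S ω)).card : ℝ) * w x := by
    refine sum_le_sum fun x hx => ?_
    exact mul_le_mul_of_nonneg_right (prob hL hA hS hx) (hw x)
  linarith

end main

end Pool.Agent.H602.KS
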