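import Pool.Agent.H602.KS.Small

/-!
# Progression-free subsets of sets of small doubling: the theorem
-/

set_option autoImplicit false

open Finset
open scoped Pointwise

namespace Pool.Agent.H602.KS

open Pool.Agent.H617R3.AP

/-- the half width of the window at the scale `2 ^ j` -/
noncomputable def wd (j : ℕ) : ℕ := ⌊√(√(j : ℝ))⌋₊

theorem wd_mono {i j : ℕ} (h : i ≤ j) : wd i ≤ wd j := by
  unfold wd
  apply Nat.floor_le_floor
  apply Real.sqrt_le_sqrt
  apply Real.sqrt_le_sqrt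
  exact_mod_cast h

/-- irregular scales, for windows of variable width -/
def VBad (k : ℕ) (η : ℝ) (J : ℕ) : Set ℕ := {j | j < J ∨ j ∈ Bad k (wd j) η}

open Classical in
theorem vbad_card {k : ℕ} (hk : 3 ≤ k) {η : ℝ} (hη : 0 < η) (J K : ℕ) (hK : 1 ≤ K) :
    (((range K).filter (fun j => j ∈ VBad k η J)).card : ℝ) ≤
      J + (1 + 16 / η) * (√(√(K : ℝ)) * √(K : ℝ)) := by
  set H := wd K with hH
  have h1 : (range K).filter (fun j => j ∈ VBad k η J) ⊆
      range J ∪ (range K).filter (fun j => j ∈ Bad k H η) := by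
    intro j hj
    rw [mem_filter, mem_range] at hj
    rw [mem_union, mem_range, mem_filter, mem_range]
    rcases hj.2 with h | h
    · exact Or.inl h
    · refine Or.inr ⟨hj.1, ?_⟩
      have hw : wd j ≤ H := wd_mono hj.1.le
      unfold Bad at h ⊢
      simp only [Set.mem_ofPred_eq] at h ⊢
      by_cases h2 : j < H
      · exact Or.inl h2
      · right
        rcases h with h | h
        · omega
        · have h3 := f_anti hk (show j - H ≤ j - wd j by omega)
          have h4 := f_anti hk (show j - wd j + 2 * wd j ≤ j - H + 2 * H by omega)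
          linarith
  have h2 := (card_le_card h1).trans (card_union_le _ _)
  rw [card_range] at h2
  have h3 := bad_card hk H K hη
  have h4 : (((range K).filter (fun j => j ∈ VBad k η J)).card : ℝ) ≤
      J + ((range K).filter (fun j => j ∈ Bad k H η)).card := by exact_mod_cast h2
  have hK1 : (1 : ℝ) ≤ K := by exact_mod_cast hK
  have hs1 : 1 ≤ √(K : ℝ) := by rw [Real.one_le_sqrt]; exact hK1
  have hss1 : 1 ≤ √(√(K : ℝ)) := by rw [Real.one_le_sqrt]; exact hs1
  have hsq : √(K : ℝ) ≤ K := by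
    rw [Real.sqrt_le_left (by linarith)]
    nlinarith
  have hssq : √(√(K : ℝ)) ≤ √(K : ℝ) := Real.sqrt_le_sqrt hsq
  have hHr : (H : ℝ) ≤ √(√(K : ℝ)) := Nat.floor_le (Real.sqrt_nonneg _)
  have hH0 : (0 : ℝ) ≤ H := Nat.cast_nonneg _
  have h5 : √((K : ℝ) + 2 * H) ≤ 2 * √(K : ℝ) := by
    have h6 : (K : ℝ) + 2 * H ≤ 4 * K := by linarith
    calc √((K : ℝ) + 2 * H) ≤ √(4 * K) := Real.sqrt_le_sqrt h6
      _ = 2 * √(K : ℝ) := by
        rw [Real.sqrt_mul (by norm_num)]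
        congr 1
        rw [show (4 : ℝ) = 2 ^ 2 by norm_num]
        exact Real.sqrt_sq (by norm_num)
  have h7 : 8 * (H : ℝ) * √((K : ℝ) + 2 * H) / η ≤ 16 / η * (√(√(K : ℝ)) * √(K : ℝ)) := by
    have h8 : 8 * (H : ℝ) * √((K : ℝ) + 2 * H) ≤ 8 * √(√(K : ℝ)) * (2 * √(K : ℝ)) :=
      mul_le_mul (by linarith) h5 (Real.sqrt_nonneg _) (by positivity)
    calc 8 * (H : ℝ) * √((K : ℝ) + 2 * H) / η ≤ 8 * √(√(K : ℝ)) * (2 * √(K : ℝ)) / η :=
          div_le_div_of_nonneg_right h8 hη.le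
      _ = 16 / η * (√(√(K : ℝ)) * √(K : ℝ)) := by ring
  have h9 : (H : ℝ) ≤ √(√(K : ℝ)) * √(K : ℝ) := by nlinarith
  have e : (J : ℝ) + (1 + 16 / η) * (√(√(K : ℝ)) * √(K : ℝ)) =
      J + (√(√(K : ℝ)) * √(K : ℝ) + 16 / η * (√(√(K : ℝ)) * √(K : ℝ))) := by ring
  rw [e]
  linarith

/-- the quarter power of the logarithm -/
noncomputable def qq (N : ℕ) : ℝ := √(√(Real.log N))

theorem log_bounds {N j : ℕ} (hN : 1 ≤ N) (hj : j = Nat.log 2 N) :
    69 / 100 * (j : ℝ) ≤ Real.log N ∧ Real.log N ≤ j + 1 := by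
  have hN0 : (0 : ℝ) < N := by exact_mod_cast hN
  have hL2 := Real.log_two_gt_d9
  have hL2' := Real.log_two_lt_d9
  have hj0 : (0 : ℝ) ≤ j := Nat.cast_nonneg _
  constructor
  · have h5 : (2 : ℝ) ^ j ≤ N := by
      rw [hj]
      exact_mod_cast Nat.pow_log_le_self 2 (by omega : N ≠ 0)
    have h6 := Real.log_le_log (by positivity) h5
    rw [Real.log_pow] at h6
    nlinarith
  · have h5 : (N : ℝ) ≤ 2 ^ (j + 1) := by
      rw [hj]
      exact_mod_cast (Nat.lt_pow_succ_log_self (by norm_num : 1 < 2) N).le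
    have h6 := Real.log_le_log hN0 h5
    rw [Real.log_pow] at h6
    push_cast at h6
    nlinarith

theorem window_param {τ : ℝ} (hτ : 0 < τ) {N j : ℕ} (hN : 1 ≤ N) (hj : j = Nat.log 2 N)
    (hS : 10 * (Real.log (16 / τ) + 2) ≤ √(√(j : ℝ))) :
    2 * (8 / τ) * Real.exp (qq N / 2) ≤ 2 ^ (wd j) := by
  have hL2 := Real.log_two_gt_d9
  have hj0 : (0 : ℝ) ≤ j := Nat.cast_nonneg _
  have h3 : qq N ≤ √(√(j : ℝ)) + 1 := by
    unfold qq
    have h4 := (log_bounds hN hj).2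
    have h5 : √(Real.log N) ≤ √(j : ℝ) + 1 := by
      calc √(Real.log N) ≤ √((j : ℝ) + 1) := Real.sqrt_le_sqrt h4
        _ ≤ √(j : ℝ) + 1 := by
          rw [Real.sqrt_le_left (by positivity)]
          have := Real.sq_sqrt hj0
          nlinarith [Real.sqrt_nonneg (j : ℝ)]
    calc √(√(Real.log N)) ≤ √(√(j : ℝ) + 1) := Real.sqrt_le_sqrt h5
      _ ≤ √(√(j : ℝ)) + 1 := by
        rw [Real.sqrt_le_left (by positivity)]
        have := Real.sq_sqrt (Real.sqrt_nonneg (j : ℝ))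
        nlinarith [Real.sqrt_nonneg (√(j : ℝ))]
  have hw : √(√(j : ℝ)) - 1 ≤ wd j := by
    have := Nat.lt_floor_add_one (√(√(j : ℝ)))
    unfold wd
    linarith
  have hw0 : (0 : ℝ) ≤ wd j := Nat.cast_nonneg _
  set s : ℝ := √(√(j : ℝ)) with hs
  have hs0 : 0 ≤ s := Real.sqrt_nonneg _
  have h7 : Real.log (16 / τ) + qq N / 2 ≤ wd j * Real.log 2 := by
    have h9 : (s - 1) * (69 / 100) ≤ wd j * Real.log 2 := by
      rcases le_or_gt 0 (s - 1) with h | h
      · exact mul_le_mul hw (by linarith) (by norm_num) hw0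
      · have : 0 ≤ wd j * Real.log 2 := mul_nonneg hw0 (by linarith)
        nlinarith
    linarith
  have h11 := Real.exp_le_exp.2 h7
  rw [Real.exp_add, Real.exp_log (by positivity)] at h11
  calc 2 * (8 / τ) * Real.exp (qq N / 2)
      = 16 / τ * Real.exp (qq N / 2) := by ring
    _ ≤ Real.exp (wd j * Real.log 2) := h11
    _ = 2 ^ (wd j) := by
      rw [mul_comm, Real.exp_mul, Real.exp_log (by norm_num), Real.rpow_natCast]

open Classical in
/-- regular numbers, wide windows -/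
theorem regular_wide {k : ℕ} (hk : 3 ≤ k) {τ : ℝ} (h0 : 0 < τ) (h1 : τ ≤ 1) (Z : ℝ) :
    ∃ (C : ℝ) (E : Set ℕ),
      (∀ x : ℕ, 2 ≤ x → ∑ N ∈ (Icc 1 x).filter (fun N => N ∈ E), (1 : ℝ) / N ≤
        C * Real.log x ^ (3 / 4 : ℝ)) ∧
      ∀ N : ℕ, 1 ≤ N → N ∉ E → Z ≤ qq N ∧
        ∀ X : ℕ, (N : ℝ) ≤ Real.exp (qq N / 2) * X → (X : ℝ) ≤ Real.exp (qq N / 2) * N →
        ∀ Y : ℕ, (N : ℝ) ≤ Real.exp (qq N / 2) * Y → (Y : ℝ) ≤ Real.exp (qq N / 2) * N →
        d k Y ≤ (1 + τ) * d k X := by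
  set R : ℝ := |10 * (Real.log (16 / τ) + 2)| + 2 * |Z| with hR
  have hR0 : 0 ≤ R := by positivity
  obtain ⟨J, hJ⟩ := exists_nat_gt (R ^ 4)
  refine ⟨J * 2 + (1 + 16 / (τ / 4)) * 27, {N | Nat.log 2 N ∈ VBad k (τ / 4) J},
    fun x hx => ?_, fun N hN hNE => ?_⟩
  · refine (sum_blocks _ (VBad k (τ / 4) J) (fun N hN => hN) x).trans ?_
    refine (vbad_card hk (by positivity) J (Nat.log 2 x + 1) (by omega)).trans ?_
    have hlog := natlog_le (x := x) (by omega)
    have hx' : (2 : ℝ) ≤ x := by exact_mod_cast hx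
    have hl2 := Real.log_two_gt_d9
    have hl : Real.log 2 ≤ Real.log x := Real.log_le_log (by norm_num) hx'
    set X : ℝ := Real.log x with hX
    have hX0 : 0 < X := by linarith
    have h3 : (((Nat.log 2 x + 1 : ℕ)) : ℝ) ≤ 3 * X := by
      push_cast
      linarith
    have h34 : √(√(((Nat.log 2 x + 1 : ℕ)) : ℝ)) * √(((Nat.log 2 x + 1 : ℕ)) : ℝ) ≤
        27 * X ^ (3 / 4 : ℝ) := by
      have h5 : √(((Nat.log 2 x + 1 : ℕ)) : ℝ) ≤ √(3 * X) := Real.sqrt_le_sqrt h3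
      have h6 : √(√(((Nat.log 2 x + 1 : ℕ)) : ℝ)) ≤ √(√(3 * X)) := Real.sqrt_le_sqrt h5
      have h7 : √(√(((Nat.log 2 x + 1 : ℕ)) : ℝ)) * √(((Nat.log 2 x + 1 : ℕ)) : ℝ) ≤
          √(√(3 * X)) * √(3 * X) := mul_le_mul h6 h5 (Real.sqrt_nonneg _) (Real.sqrt_nonneg _)
      refine h7.trans ?_
      have h8 : √(√(3 * X)) * √(3 * X) = (3 * X) ^ (3 / 4 : ℝ) := by
        rw [Real.sqrt_eq_rpow, Real.sqrt_eq_rpow, ← Real.rpow_mul (by positivity),
          ← Real.rpow_add (by positivity)]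
        norm_num
      rw [h8, Real.mul_rpow (by norm_num) hX0.le]
      apply mul_le_mul_of_nonneg_right _ (by positivity)
      calc (3 : ℝ) ^ (3 / 4 : ℝ) ≤ 3 ^ (3 : ℝ) :=
            Real.rpow_le_rpow_of_exponent_le (by norm_num) (by norm_num)
        _ = 27 := by norm_num
    have h35 : (1 : ℝ) ≤ 2 * X ^ (3 / 4 : ℝ) := by
      rcases le_or_gt 1 X with h | h
      · have := Real.one_le_rpow h (show (0 : ℝ) ≤ 3 / 4 by norm_num)
        linarith
      · have h9 : X ^ (1 : ℝ) ≤ X ^ (3 / 4 : ℝ) :=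
          Real.rpow_le_rpow_of_exponent_ge hX0 h.le (by norm_num)
        rw [Real.rpow_one] at h9
        linarith
    have hJ0 : (0 : ℝ) ≤ J := Nat.cast_nonneg _
    have h36 : (J : ℝ) ≤ J * (2 * X ^ (3 / 4 : ℝ)) := le_mul_of_one_le_right hJ0 h35
    have h37 : 0 ≤ 1 + 16 / (τ / 4) := by positivity
    have h38 := mul_le_mul_of_nonneg_left h34 h37
    calc _ ≤ (J : ℝ) * (2 * X ^ (3 / 4 : ℝ)) + (1 + 16 / (τ / 4)) * (27 * X ^ (3 / 4 : ℝ)) := by
          linarith
      _ = _ := by ring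
  · have hNE' : ¬ (Nat.log 2 N < J ∨ Nat.log 2 N ∈ Bad k (wd (Nat.log 2 N)) (τ / 4)) := hNE
    rw [not_or, not_lt] at hNE'
    obtain ⟨hJN, hbad⟩ := hNE'
    set j := Nat.log 2 N with hj
    have hjR : R ^ 4 ≤ j := by
      have : (J : ℝ) ≤ j := by exact_mod_cast hJN
      linarith
    have hsR : R ≤ √(√(j : ℝ)) := by
      apply Real.le_sqrt_of_sq_le
      apply Real.le_sqrt_of_sq_le
      rw [← pow_mul]
      exact hjR
    constructor
    · -- the quarter power is large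
      have h2 := (log_bounds hN hj).1
      have h3 : (|Z|) ^ 4 ≤ Real.log N := by
        have h4 : (2 * |Z|) ^ 4 ≤ R ^ 4 := by
          apply pow_le_pow_left₀ (by positivity)
          have := abs_nonneg (10 * (Real.log (16 / τ) + 2))
          linarith
        have h5 : (2 * |Z|) ^ 4 = 16 * |Z| ^ 4 := by ring
        have h6 : 0 ≤ |Z| ^ 4 := by positivity
        nlinarith
      have h4 : |Z| ≤ qq N := by
        unfold qq
        apply Real.le_sqrt_of_sq_le
        apply Real.le_sqrt_of_sq_le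
        rw [← pow_mul]
        exact h3
      exact (le_abs_self Z).trans h4
    · intro X hX1 hX2 Y hY1 hY2
      have hS : 10 * (Real.log (16 / τ) + 2) ≤ √(√(j : ℝ)) := by
        refine le_trans ?_ hsR
        have := le_abs_self (10 * (Real.log (16 / τ) + 2))
        have := abs_nonneg Z
        linarith
      have hm := window_param h0 hN hj hS
      have hΛ1 : 1 ≤ Real.exp (qq N / 2) := by
        apply Real.one_le_exp
        have : 0 ≤ qq N := Real.sqrt_nonneg _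
        positivity
      have hreg := regular hk h0 h1 hN hbad hΛ1 hm
      exact (hreg.2 X hX1 hX2).2 Y hY1 hY2

/-- transfer by a Freiman isomorphism -/
theorem transferIso {G : Type*} [AddCommGroup G]
    (htf : ∀ (n : ℕ) (x : G), n ≠ 0 → n • x = 0 → x = 0) {k : ℕ} (hk : 2 ≤ k) {S : Finset G}
    {φ : G → ℤ} (hφ : IsoG S φ) (w : G → ℝ) (hw : ∀ x, 0 ≤ w x) {c : ℝ}
    (h : ∀ w' : ℤ → ℝ, (∀ n, 0 ≤ w' n) → ∃ A' : Finset ℤ, A' ⊆ S.image φ ∧ FreeIn k A' ∧
      c * ∑ n ∈ S.image φ, w' n ≤ ∑ n ∈ A', w' n) :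
    ∃ A ⊆ S, FreeIn k A ∧ c * ∑ x ∈ S, w x ≤ ∑ x ∈ A, w x := by
  classical
  obtain ⟨A', hA', hfree, hsum⟩ := h (fun n => ∑ x ∈ S.filter (fun x => φ x = n), w x)
    (fun n => sum_nonneg fun x _ => hw x)
  refine ⟨S.filter (fun x => φ x ∈ A'), filter_subset _ _, hφ.free_preimage htf hk hfree, ?_⟩
  have e1 : ∑ n ∈ S.image φ, ∑ x ∈ S.filter (fun x => φ x = n), w x = ∑ x ∈ S, w x :=
    sum_fiberwise_of_maps_to (fun x hx => mem_image_of_mem φ hx) _
  have e2 : ∑ n ∈ A', ∑ x ∈ S.filter (fun x => φ x = n), w x =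
      ∑ x ∈ S.filter (fun x => φ x ∈ A'), w x := by
    rw [← sum_fiberwise_of_maps_to (s := S.filter (fun x => φ x ∈ A')) (t := A') (g := φ)
      (fun x hx => (mem_filter.1 hx).2)]
    refine sum_congr rfl fun n hn => sum_congr ?_ fun _ _ => rfl
    ext x
    simp only [mem_filter]
    constructor
    · rintro ⟨h1, rfl⟩
      exact ⟨⟨h1, hn⟩, rfl⟩
    · rintro ⟨⟨h1, -⟩, h2⟩
      exact ⟨h1, h2⟩
  rw [e1, e2] at hsum
  exact hsum

/-- the upper bound, for all numbers of elements -/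
theorem upper {G : Type*} [AddCommGroup G] [DecidableEq G]
    (htf : ∀ (n : ℕ) (x : G), n ≠ 0 → n • x = 0 → x = 0) {k : ℕ} (hk : 3 ≤ k) {K : ℝ} {S : Finset G}
    (hK : ((S + S).card : ℝ) ≤ K * S.card) {A : Finset G} (hAS : A ⊆ S) (hA : FreeIn k A) :
    (A.card : ℝ) ≤ (len K + 2) * r k S.card := by
  classical
  rcases S.eq_empty_or_nonempty with h0 | hS
  · subst h0
    rw [subset_empty.1 hAS]
    simp only [card_empty, Nat.cast_zero]
    have : 0 < len K := Real.exp_pos _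
    positivity
  obtain ⟨φ, hφ, hb⟩ := compressG htf hS hK
  set N := S.card with hN
  have hNpos : 0 < N := hS.card_pos
  have hN0 : (0 : ℝ) < N := by exact_mod_cast hNpos
  set m : ℕ := ⌈len K * N⌉₊ with hm
  have hfree := hφ.free_image (k := k) (by omega) hAS hA
  have hcard : (A.image φ).card = A.card :=
    card_image_of_injOn fun a ha b hb' hab => hφ.inj' htf (hAS ha) (hAS hb') hab
  -- natural numbers
  have hcardN : ((A.image φ).image (fun x => x.toNat + 1)).card = A.card := by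
    rw [card_image_of_injOn, hcard]
    intro x hx y hy hxy
    obtain ⟨a, ha, rfl⟩ := mem_image.1 hx
    obtain ⟨b, hb', rfl⟩ := mem_image.1 hy
    have h1 := (hb a (hAS ha)).1
    have h2 := (hb b (hAS hb')).1
    simp only at hxy
    omega
  have hle : A.card ≤ r k m := by
    rw [← hcardN]
    apply card_le_r
    · intro n hn
      obtain ⟨x, hx, rfl⟩ := mem_image.1 hn
      obtain ⟨a, ha, rfl⟩ := mem_image.1 hx
      obtain ⟨h1, h2⟩ := hb a (hAS ha)
      have h3 : (φ a : ℝ) < m := lt_of_lt_of_le h2 (Nat.le_ceil _)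
      have h4 : φ a < m := by exact_mod_cast h3
      rw [mem_Icc]
      omega
    · intro a d hd hall
      refine hfree ((a : ℤ) - 1) d (by omega) fun i hi => ?_
      obtain ⟨x, hx, hx2⟩ := mem_image.1 (hall i hi)
      obtain ⟨y, hy, rfl⟩ := mem_image.1 hx
      have h1 := (hb y (hAS hy)).1
      have h2 : (a : ℤ) - 1 + i • (d : ℤ) = φ y := by
        have h3 : ((φ y).toNat : ℤ) + 1 = ((a + i * d : ℕ) : ℤ) := by exact_mod_cast hx2
        push_cast at h3
        rw [nsmul_eq_mul]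
        omega
      rw [h2]
      exact hx
  have h1 := r_le (k := k) (by omega) m hNpos
  have h2 : (m : ℝ) ≤ len K * N + 1 := (Nat.ceil_lt_add_one (by
    have : 0 < len K := Real.exp_pos _
    positivity)).le
  have h3 : (A.card : ℝ) ≤ r k m := by exact_mod_cast hle
  refine h3.trans (h1.trans ?_)
  have h4 : ((m : ℝ) + N) * ((r k N : ℝ) / N) = ((m : ℝ) / N + 1) * r k N := by
    field_simp
  rw [h4]
  apply mul_le_mul_of_nonneg_right _ (Nat.cast_nonneg _)
  have h5 : (m : ℝ) / N ≤ len K + 1 := by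
    rw [div_le_iff₀ hN0]
    have : (1 : ℝ) ≤ N := by exact_mod_cast hNpos
    linarith
  linarith

open Classical in
/-- the lower bound, for almost all numbers of elements -/
theorem lower {k : ℕ} (hk : 3 ≤ k) {ε : ℝ} (h0 : 0 < ε) :
    ∃ (C : ℝ) (E : Set ℕ),
      (∀ x : ℕ, 2 ≤ x → ∑ N ∈ (Icc 1 x).filter (fun N => N ∈ E), (1 : ℝ) / N ≤
        C * Real.log x ^ (3 / 4 : ℝ)) ∧
      ∀ N : ℕ, 1 ≤ N → N ∉ E → ∀ (G : Type*) [AddCommGroup G],
        (∀ (n : ℕ) (x : G), n ≠ 0 → n • x = 0 → x = 0) → ∀ S : Finset G, S.card = N →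
        ((S + S).card : ℝ) ≤ Real.log N ^ (1 / 240000 : ℝ) * N →
        ∀ w : G → ℝ, (∀ x, 0 ≤ w x) → ∃ A ⊆ S, FreeIn k A ∧
          ((1 - ε) * (r k N / N)) * ∑ x ∈ S, w x ≤ ∑ x ∈ A, w x := by
  set τ : ℝ := min (ε / 2) 1 with hτ
  have hτ0 : 0 < τ := lt_min (by positivity) one_pos
  have hτ1 : τ ≤ 1 := min_le_right _ _
  have hτε : τ ≤ ε / 2 := min_le_left _ _
  set Q : ℕ := ⌈8 / ε⌉₊ with hQ
  have hQ1 : 1 ≤ Q := Nat.one_le_ceil_iff.2 (by positivity)
  have hQε : 8 / ε ≤ Q := Nat.le_ceil _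
  have hQ0 : (0 : ℝ) < Q := by exact_mod_cast hQ1
  obtain ⟨a, ha⟩ : ∃ a : ℝ, a = 100000000000 * 2 ^ (30000 : ℝ) := ⟨_, rfl⟩
  have ha0 : 0 < a := by rw [ha]; positivity
  obtain ⟨Z, hZ⟩ : ∃ Z : ℝ, Z = 16 * a ^ 2 + 4 * Real.log (2 * Q) := ⟨_, rfl⟩
  obtain ⟨C, E, hE, hreg⟩ := regular_wide hk hτ0 hτ1 Z
  refine ⟨C, E, hE, fun N hN hNE G _ htf S hS hdoub w hw => ?_⟩
  obtain ⟨hZN, hreg⟩ := hreg N hN hNE
  set K : ℝ := Real.log N ^ (1 / 240000 : ℝ) with hK
  have hSne : S.Nonempty := by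
    rw [← card_pos]
    omega
  have hN0 : (0 : ℝ) < N := by exact_mod_cast hN
  have hlogN : 0 ≤ Real.log N := Real.log_nonneg (by exact_mod_cast hN)
  obtain ⟨φ, hφ, hb⟩ := compressG (K := K) htf hSne (by rw [hS]; exact hdoub)
  rw [hS] at hb
  set m : ℕ := ⌈len K * N⌉₊ with hm
  set M : ℕ := Q * m with hM
  have hlen1 : 1 ≤ len K := by
    unfold len
    apply Real.one_le_exp
    positivity
  have hm1 : len K * N ≤ m := Nat.le_ceil _
  have hm2 : (m : ℝ) ≤ 2 * len K * N := by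
    have h1 : (m : ℝ) ≤ len K * N + 1 := (Nat.ceil_lt_add_one (by positivity)).le
    have h2 : (1 : ℝ) ≤ N := by exact_mod_cast hN
    nlinarith
  have hNm : (N : ℝ) ≤ m := by nlinarith
  have hmpos : (0 : ℝ) < m := by linarith
  have hm1' : 1 ≤ m := by exact_mod_cast hmpos
  -- the length of the interval is in the window
  have hqq0 : 0 ≤ qq N := Real.sqrt_nonneg _
  have hlogQ : 0 ≤ Real.log (2 * Q) := by
    apply Real.log_nonneg
    have : (1 : ℝ) ≤ Q := by exact_mod_cast hQ1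
    linarith
  have hwin : 2 * Q * len K ≤ Real.exp (qq N / 2) := by
    have h1 : (2 * K) ^ (30000 : ℝ) = 2 ^ (30000 : ℝ) * √(qq N) := by
      rw [Real.mul_rpow (by norm_num) (by positivity), hK, ← Real.rpow_mul hlogN]
      unfold qq
      rw [Real.sqrt_eq_rpow, Real.sqrt_eq_rpow, Real.sqrt_eq_rpow, ← Real.rpow_mul hlogN,
        ← Real.rpow_mul hlogN]
      congr 2
      norm_num
    have h2 : a * √(qq N) ≤ qq N / 4 := by
      have h3 : 4 * a ≤ √(qq N) := by
        apply Real.le_sqrt_of_sq_le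
        have : (4 * a) ^ 2 = 16 * a ^ 2 := by ring
        linarith
      have h4 := Real.mul_self_sqrt hqq0
      nlinarith [Real.sqrt_nonneg (qq N)]
    unfold len
    rw [h1, ← mul_assoc, ← ha]
    calc 2 * (Q : ℝ) * Real.exp (a * √(qq N)) = Real.exp (Real.log (2 * Q) + a * √(qq N)) := by
          rw [Real.exp_add, Real.exp_log (by positivity)]
      _ ≤ Real.exp (qq N / 2) := by
          apply Real.exp_le_exp.2
          have h3 : 0 ≤ 16 * a ^ 2 := by positivity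
          have h4 : Real.log (2 * Q) ≤ qq N / 4 := by linarith
          linarith
  have hΛ0 : 0 < Real.exp (qq N / 2) := Real.exp_pos _
  have hQ1' : (1 : ℝ) ≤ Q := by exact_mod_cast hQ1
  have hΛ1 : 1 ≤ Real.exp (qq N / 2) := Real.one_le_exp (by positivity)
  have hMr : (M : ℝ) = Q * m := by rw [hM]; push_cast; ring
  have hMN : (M : ℝ) ≤ Real.exp (qq N / 2) * N := by
    rw [hMr]
    calc (Q : ℝ) * m ≤ Q * (2 * len K * N) := mul_le_mul_of_nonneg_left hm2 hQ0.le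
      _ = 2 * Q * len K * N := by ring
      _ ≤ Real.exp (qq N / 2) * N := mul_le_mul_of_nonneg_right hwin hN0.le
  have hmM : (m : ℝ) ≤ M := by rw [hMr]; nlinarith
  have hNN : (N : ℝ) ≤ Real.exp (qq N / 2) * N := by nlinarith
  have hNm' : (N : ℝ) ≤ Real.exp (qq N / 2) * m := by nlinarith
  have hNM' : (N : ℝ) ≤ Real.exp (qq N / 2) * M := by nlinarith
  have hd1 : d k N ≤ (1 + τ) * d k M := hreg M hNM' hMN N hNN hNN
  have hd2 : d k m ≤ (1 + τ) * d k N := hreg N hNN hNN m hNm' (hmM.trans hMN)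
  refine transferIso htf (by omega) hφ w hw fun w' hw' => ?_
  obtain ⟨A, hAT, hAf, hsum⟩ := translate (k := k) (by omega) (show m ≤ M by exact_mod_cast hmM)
    (T := S.image φ) (by
      intro x hx
      obtain ⟨y, hy, rfl⟩ := mem_image.1 hx
      obtain ⟨h1, h2⟩ := hb y hy
      exact ⟨h1, by exact_mod_cast lt_of_lt_of_le h2 hm1⟩) w' hw'
  refine ⟨A, hAT, hAf, ?_⟩
  have hW0 : 0 ≤ ∑ x ∈ S.image φ, w' x := sum_nonneg fun x _ => hw' x
  have hA0 : 0 ≤ ∑ x ∈ A, w' x := sum_nonneg fun x _ => hw' x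
  have hM0 : (0 : ℝ) < M := by linarith
  have hdN := d_pos hk hN
  have hrM : (r k M : ℝ) = d k M * M := by unfold d; field_simp
  have hrm : (r k m : ℝ) = d k m * m := by unfold d; field_simp
  have h5 : (1 - ε) * (r k N / N) * M ≤ (r k M : ℝ) - 2 * r k m := by
    have e : (r k N : ℝ) / N = d k N := rfl
    rw [e, hrM, hrm]
    have h6 : (1 - τ) * d k N ≤ d k M := by
      have h7 : (1 - τ) * d k N ≤ (1 - τ) * ((1 + τ) * d k M) :=
        mul_le_mul_of_nonneg_left hd1 (by linarith)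
      have h8 : 0 ≤ d k M := by unfold d; positivity
      nlinarith [sq_nonneg τ]
    have h7 : 2 * (d k m * m) ≤ 4 * d k N * m := by
      have : d k m ≤ 2 * d k N := by nlinarith
      nlinarith
    have h8 : 4 * d k N * m ≤ ε / 2 * d k N * M := by
      rw [hMr]
      have h9 : 8 ≤ ε * Q := by
        rw [div_le_iff₀ h0] at hQε
        linarith
      have h10 : 0 ≤ d k N * m := by positivity
      nlinarith
    have h9 : (1 - τ) * d k N * M ≤ d k M * M := mul_le_mul_of_nonneg_right h6 hM0.le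
    have h10 : 0 ≤ d k N * M := by positivity
    nlinarith
  have h6 : ((M : ℝ) - m + 1) * ∑ x ∈ A, w' x ≤ M * ∑ x ∈ A, w' x := by
    apply mul_le_mul_of_nonneg_right _ hA0
    have : (1 : ℝ) ≤ m := by exact_mod_cast hm1'
    linarith
  have h7 : (1 - ε) * (r k N / N) * M * ∑ x ∈ S.image φ, w' x ≤
      ((r k M : ℝ) - 2 * r k m) * ∑ x ∈ S.image φ, w' x := mul_le_mul_of_nonneg_right h5 hW0
  have h8 : (M : ℝ) * ((1 - ε) * (r k N / N) * ∑ x ∈ S.image φ, w' x) ≤ M * ∑ x ∈ A, w' x := by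
    calc (M : ℝ) * ((1 - ε) * (r k N / N) * ∑ x ∈ S.image φ, w' x) =
        (1 - ε) * (r k N / N) * M * ∑ x ∈ S.image φ, w' x := by ring
      _ ≤ M * ∑ x ∈ A, w' x := h7.trans (hsum.trans h6)
  exact le_of_mul_le_mul_left h8 hM0

end Pool.Agent.H602.KS
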