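import Mathlib

/-!
# Finite subsets of torsion-free groups and the integers
-/

set_option autoImplicit false

open Finset

namespace Pool.Agent.H602.KS

/-- `A` contains no progression `a, a + d, ..., a + (k - 1) d` with `d ≠ 0`. -/
def FreeIn {G : Type*} [AddCommGroup G] (k : ℕ) (A : Finset G) : Prop :=
  ∀ a d : G, d ≠ 0 → ¬ ∀ i < k, a + i • d ∈ A

/-- a homomorphism from `ℤ ^ n` to `ℤ` which does not vanish at finitely many given vectors -/
theorem exists_dual {n : ℕ} (F : Finset (Fin n → ℤ)) (hF : ∀ v ∈ F, v ≠ 0) :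
    ∃ B : ℤ, ∀ v ∈ F, ∑ i, v i * B ^ (i : ℕ) ≠ 0 := by
  classical
  set P : (Fin n → ℤ) → Polynomial ℤ := fun v => ∑ i, Polynomial.C (v i) * Polynomial.X ^ (i : ℕ)
    with hP
  have hcoef : ∀ (v : Fin n → ℤ) (j : Fin n), (P v).coeff j = v j := by
    intro v j
    rw [hP]
    simp only [Polynomial.finsetSum_coeff, Polynomial.coeff_C_mul, Polynomial.coeff_X_pow]
    rw [Finset.sum_eq_single j]
    · simp
    · intro i _ hij
      rw [if_neg]
      · simp
      · intro h
        exact hij (Fin.ext h.symm)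
    · intro h
      exact absurd (mem_univ j) h
  have hne : ∀ v ∈ F, P v ≠ 0 := by
    intro v hv h
    apply hF v hv
    funext j
    rw [← hcoef v j, h]
    simp
  obtain ⟨B, hB⟩ := Infinite.exists_notMem_finset (F.biUnion fun v => (P v).roots.toFinset)
  refine ⟨B, fun v hv h => hB ?_⟩
  rw [mem_biUnion]
  refine ⟨v, hv, ?_⟩
  rw [Multiset.mem_toFinset, Polynomial.mem_roots (hne v hv), Polynomial.IsRoot.def, hP]
  simp only [Polynomial.eval_finsetSum, Polynomial.eval_mul, Polynomial.eval_C,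
    Polynomial.eval_pow, Polynomial.eval_X]
  exact h

/-- a finite subset of a torsion-free group can be mapped to the integers -/
theorem exists_hom {G : Type*} [AddCommGroup G]
    (htf : ∀ (n : ℕ) (x : G), n ≠ 0 → n • x = 0 → x = 0) (S : Finset G) :
    ∃ φ : G → ℤ, (∀ x ∈ AddSubgroup.closure (S : Set G), ∀ y ∈ AddSubgroup.closure (S : Set G),
      φ (x + y) = φ x + φ y) ∧ ∀ x ∈ S, ∀ y ∈ S, φ x = φ y → x = y := by
  classical
  set H := AddSubgroup.closure (S : Set G) with hH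
  have hfg : AddGroup.FG H := by
    rw [AddGroup.fg_iff_addSubgroup_fg]
    exact ⟨S, rfl⟩
  have hfin : Module.Finite ℤ H := Module.Finite.iff_addGroup_fg.2 hfg
  have htf' : Module.IsTorsionFree ℤ H := by
    rw [Module.isTorsionFree_int_iff_isAddTorsionFree]
    refine ⟨fun n hn x y hxy => ?_⟩
    have h1 : n • (x - y) = 0 := by
      simp only at hxy
      rw [smul_sub, hxy, sub_self]
    have h2 : n • ((x - y : H) : G) = 0 := by
      rw [← AddSubgroup.coe_nsmul, h1]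
      rfl
    have h3 := htf n _ hn h2
    have h4 : x - y = 0 := by
      apply Subtype.ext
      exact h3
    exact sub_eq_zero.1 h4
  have hfree : Module.Free ℤ H := inferInstance
  let b := Module.finBasis ℤ H
  set n := Module.finrank ℤ H with hn
  set F : Finset (Fin n → ℤ) := ((S ×ˢ S).image (fun q : G × G =>
    if h : q.1 ∈ H ∧ q.2 ∈ H then (b.equivFun (⟨q.1, h.1⟩ - ⟨q.2, h.2⟩)) else 0)).erase 0 with hF
  obtain ⟨B, hB⟩ := exists_dual F (fun v hv => (mem_erase.1 hv).1)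
  refine ⟨fun x => if h : x ∈ H then ∑ i, b.equivFun ⟨x, h⟩ i * B ^ (i : ℕ) else 0, ?_, ?_⟩
  · intro x hx y hy
    simp only
    rw [dif_pos hx, dif_pos hy, dif_pos (H.add_mem hx hy), ← sum_add_distrib]
    refine sum_congr rfl fun i _ => ?_
    have h1 : (⟨x + y, H.add_mem hx hy⟩ : H) = ⟨x, hx⟩ + ⟨y, hy⟩ := rfl
    rw [h1, map_add, Pi.add_apply]
    ring
  · intro x hx y hy hxy
    have hxH : x ∈ H := AddSubgroup.subset_closure hx
    have hyH : y ∈ H := AddSubgroup.subset_closure hy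
    simp only [dif_pos hxH, dif_pos hyH] at hxy
    by_contra hne
    have h1 : b.equivFun (⟨x, hxH⟩ - ⟨y, hyH⟩) ≠ 0 := by
      intro h
      have h2 : (⟨x, hxH⟩ - ⟨y, hyH⟩ : H) = 0 := by
        apply b.equivFun.injective
        rw [h, map_zero]
      have h3 : (⟨x, hxH⟩ : H) = ⟨y, hyH⟩ := sub_eq_zero.1 h2
      exact hne (congrArg Subtype.val h3)
    have h2 : b.equivFun (⟨x, hxH⟩ - ⟨y, hyH⟩) ∈ F := by
      rw [hF, mem_erase, mem_image]
      refine ⟨h1, (x, y), mem_product.2 ⟨hx, hy⟩, ?_⟩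
      rw [dif_pos ⟨hxH, hyH⟩]
    apply hB _ h2
    rw [map_sub]
    have h3 : ∑ i, ((b.equivFun ⟨x, hxH⟩ - b.equivFun ⟨y, hyH⟩) i) * B ^ (i : ℕ) =
        ∑ i, b.equivFun ⟨x, hxH⟩ i * B ^ (i : ℕ) - ∑ i, b.equivFun ⟨y, hyH⟩ i * B ^ (i : ℕ) := by
      rw [← sum_sub_distrib]
      refine sum_congr rfl fun i _ => ?_
      rw [Pi.sub_apply]
      ring
    rw [h3, hxy, sub_self]

/-- the preimage of a progression-free set -/
theorem free_preimage {G : Type*} [AddCommGroup G] {k : ℕ} (hk : 2 ≤ k) {S : Finset G} {φ : G → ℤ}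
    (hadd : ∀ x ∈ AddSubgroup.closure (S : Set G), ∀ y ∈ AddSubgroup.closure (S : Set G),
      φ (x + y) = φ x + φ y) (hinj : ∀ x ∈ S, ∀ y ∈ S, φ x = φ y → x = y)
    {A' : Finset ℤ} (hfree : FreeIn k A') : FreeIn k (S.filter (fun x => φ x ∈ A')) := by
  classical
  intro a d hd hall
  have hm : ∀ i < k, a + i • d ∈ S ∧ φ (a + i • d) ∈ A' := fun i hi => mem_filter.1 (hall i hi)
  have ha : a ∈ S := by
    have := (hm 0 (by omega)).1
    simpa using this
  have had : a + d ∈ S := by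
    have := (hm 1 (by omega)).1
    simpa using this
  have haH : a ∈ AddSubgroup.closure (S : Set G) := AddSubgroup.subset_closure ha
  have hdH : d ∈ AddSubgroup.closure (S : Set G) := by
    have h1 := AddSubgroup.sub_mem _ (AddSubgroup.subset_closure had) haH
    rwa [add_sub_cancel_left] at h1
  have hlin : ∀ i : ℕ, φ (a + i • d) = φ a + i • φ d := by
    intro i
    induction i with
    | zero => simp
    | succ i ih =>
      rw [succ_nsmul, ← add_assoc, hadd _ (AddSubgroup.add_mem _ haH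
        (AddSubgroup.nsmul_mem _ hdH i)) _ hdH, ih, succ_nsmul]
      ring
  have hd0 : φ d ≠ 0 := by
    intro h0
    have h1 := hlin 1
    rw [one_nsmul, one_nsmul, h0, add_zero] at h1
    have h2 := hinj _ had _ ha h1
    apply hd
    rwa [add_eq_left] at h2
  refine hfree (φ a) (φ d) hd0 fun i hi => ?_
  rw [← hlin i]
  exact (hm i hi).2

/-- transfer of weighted progression-free subsets -/
theorem transfer {G : Type*} [AddCommGroup G] {k : ℕ} (hk : 2 ≤ k) {S : Finset G} {φ : G → ℤ}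
    (hadd : ∀ x ∈ AddSubgroup.closure (S : Set G), ∀ y ∈ AddSubgroup.closure (S : Set G),
      φ (x + y) = φ x + φ y) (hinj : ∀ x ∈ S, ∀ y ∈ S, φ x = φ y → x = y)
    (w : G → ℝ) (hw : ∀ x, 0 ≤ w x) {c : ℝ}
    (h : ∀ w' : ℤ → ℝ, (∀ n, 0 ≤ w' n) → ∃ A' : Finset ℤ, A' ⊆ S.image φ ∧ FreeIn k A' ∧
      c * ∑ n ∈ S.image φ, w' n ≤ ∑ n ∈ A', w' n) :
    ∃ A ⊆ S, FreeIn k A ∧ c * ∑ x ∈ S, w x ≤ ∑ x ∈ A, w x := by
  classical
  obtain ⟨A', hA', hfree, hsum⟩ := h (fun n => ∑ x ∈ S.filter (fun x => φ x = n), w x)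
    (fun n => sum_nonneg fun x _ => hw x)
  refine ⟨S.filter (fun x => φ x ∈ A'), filter_subset _ _, free_preimage hk hadd hinj hfree, ?_⟩
  have e1 : ∑ n ∈ S.image φ, ∑ x ∈ S.filter (fun x => φ x = n), w x = ∑ x ∈ S, w x :=
    sum_fiberwise_of_maps_to (fun x hx => mem_image_of_mem φ hx) _
  have e2 : ∑ n ∈ A', ∑ x ∈ S.filter (fun x => φ x = n), w x =
      ∑ x ∈ S.filter (fun x => φ x ∈ A'), w x := by
    rw [← sum_fiberwise_of_maps_to (s := S.filter (fun x => φ x ∈ A')) (t := A') (g := φ)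
      (fun x hx => (mem_filter.1 hx).2)]
    refine sum_congr rfl fun n hn => sum_congr ?_ fun _ _ => rfl
    ext x
    simp only [mem_filter]
    constructor
    · rintro ⟨h1, rfl⟩
      exact ⟨⟨h1, hn⟩, rfl⟩
    · rintro ⟨⟨h1, -⟩, h2⟩
      exact ⟨h1, h2⟩
  rw [e1, e2] at hsum
  exact hsum

end Pool.Agent.H602.KS
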