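import Pool.Agent.H602.KS.Dil
import Pool.Agent.H602.KS.Hom

/-!
# Every set of integers contains a large progression-free set
-/

set_option autoImplicit false

open Finset

namespace Pool.Agent.H602.KS

open Pool.Agent.H617R3.AP

theorem free_iff {k : ℕ} {A : Finset ℤ} : FreeIn k A ↔ APFreeZ k A := by
  unfold FreeIn APFreeZ
  simp only [nsmul_eq_mul]

/-- the elementary estimate -/
theorem arith {m N K p L D τ : ℝ} (hD : 0 ≤ D) (hN : 1 ≤ N) (hK : 1 ≤ K) (hm : m = K * N)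
    (hp : 4 * (m + 1) * K ≤ p) (hL1 : p / (4 * (m + 1)) - 1 ≤ L) (hL2 : L ≤ p / (4 * (m + 1)))
    (hτ0 : 0 ≤ τ) (h : τ ≤ 1) {R : ℝ} (hR : m * D ≤ (1 + τ) * R) (hR0 : 0 ≤ R) :
    (1 / 4 - τ / 4 - 3 / (4 * K)) * D ≤ (p * (R * L) - N * (R * L ^ 2)) / p ^ 2 := by
  have hK0 : 0 < K := by linarith
  have hm1 : 1 ≤ m := by rw [hm]; nlinarith
  have hm0 : 0 < m + 1 := by linarith
  have hp0 : 0 < p := by
    have : 0 < 4 * (m + 1) * K := by positivity
    linarith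
  set x : ℝ := L / p with hx
  set u : ℝ := 1 / (4 * (m + 1)) with hu
  have hu0 : 0 < u := by positivity
  have hx2 : x ≤ u := by
    rw [hx, div_le_iff₀ hp0, hu]
    refine hL2.trans (le_of_eq (by ring))
  have hx1 : u * (1 - 1 / K) ≤ x := by
    rw [hx, le_div_iff₀ hp0]
    have h1 : 4 * (m + 1) * K * (u / K) ≤ p * (u / K) :=
      mul_le_mul_of_nonneg_right hp (by positivity)
    have h2 : 4 * (m + 1) * K * (u / K) = 1 := by
      rw [hu]; field_simp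
    have h3 : p / (4 * (m + 1)) = p * u := by rw [hu]; ring
    rw [h3] at hL1
    have h4 : u * (1 - 1 / K) * p = p * u - p * (u / K) := by field_simp
    rw [h4]
    linarith
  have hx0 : 0 ≤ x := by
    refine le_trans ?_ hx1
    have : 1 / K ≤ 1 := by rw [div_le_one hK0]; exact hK
    have h5 : 0 ≤ 1 - 1 / K := by linarith
    positivity
  have e : (p * (R * L) - N * (R * L ^ 2)) / p ^ 2 = R * x * (1 - N * x) := by
    rw [hx]; field_simp
  rw [e]
  have hNx : N * x ≤ 1 / (4 * K) := by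
    have h1 : N * x ≤ N * u := mul_le_mul_of_nonneg_left hx2 (by linarith)
    refine h1.trans ?_
    rw [hu, hm, mul_one_div, div_le_div_iff₀ (by positivity) (by positivity)]
    nlinarith
  have h6 : u * (1 - 1 / K) * (1 - 1 / (4 * K)) ≤ x * (1 - N * x) := by
    have h7 : 0 ≤ 1 - 1 / (4 * K) := by
      have : 1 / (4 * K) ≤ 1 := by rw [div_le_one (by positivity)]; linarith
      linarith
    exact mul_le_mul hx1 (by linarith) h7 hx0
  have h8 : (1 - τ) * (m * D) ≤ R := by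
    have h10 := mul_le_mul_of_nonneg_left hR (show 0 ≤ 1 - τ by linarith)
    have h11 : (1 - τ) * ((1 + τ) * R) = R - τ ^ 2 * R := by ring
    have h12 : 0 ≤ τ ^ 2 * R := by positivity
    linarith
  have hmu : (1 - 1 / K) / 4 ≤ m * u := by
    rw [hu, mul_one_div, div_le_div_iff₀ (by norm_num) (by positivity)]
    have h10 : 1 / K * (m + 1) ≥ 1 := by
      rw [ge_iff_le, one_div, inv_mul_eq_div, le_div_iff₀ hK0, hm]
      nlinarith
    nlinarith
  have hκ : 0 ≤ 1 / K := by positivity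
  have hκ1 : 1 / K ≤ 1 := by rw [div_le_one hK0]; exact hK
  have e4 : 1 / (4 * K) = 1 / K / 4 := by field_simp
  have e3 : 3 / (4 * K) = 3 * (1 / K) / 4 := by field_simp
  rw [e4] at h6
  rw [e3]
  set κ := 1 / K with hκdef
  have h11 : 0 ≤ u * (1 - κ) * (1 - κ / 4) := by
    have : 0 ≤ 1 - κ := by linarith
    have : 0 ≤ 1 - κ / 4 := by linarith
    positivity
  calc (1 / 4 - τ / 4 - 3 * κ / 4) * D ≤ (1 - τ) * ((1 - κ) / 4 * ((1 - κ) * (1 - κ / 4))) * D := by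
        apply mul_le_mul_of_nonneg_right _ hD
        have h12 : 1 - 9 / 4 * κ ≤ (1 - κ) * ((1 - κ) * (1 - κ / 4)) := by
          have : (1 - κ) * ((1 - κ) * (1 - κ / 4)) =
              1 - 9 / 4 * κ + (3 / 2 * κ ^ 2 - κ ^ 3 / 4) := by ring
          rw [this]
          have : 0 ≤ 3 / 2 * κ ^ 2 - κ ^ 3 / 4 := by
            have : κ ^ 3 ≤ κ ^ 2 := by nlinarith [sq_nonneg κ]
            nlinarith [sq_nonneg κ]
          linarith
        have h13 : (1 - τ) * (1 - 9 / 4 * κ) ≤ (1 - τ) * ((1 - κ) * ((1 - κ) * (1 - κ / 4))) :=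
          mul_le_mul_of_nonneg_left h12 (by linarith)
        have h14 : 0 ≤ τ * κ := by positivity
        nlinarith
    _ ≤ (1 - τ) * (m * u * ((1 - κ) * (1 - κ / 4))) * D := by
        apply mul_le_mul_of_nonneg_right _ hD
        apply mul_le_mul_of_nonneg_left _ (by linarith)
        exact mul_le_mul_of_nonneg_right hmu (mul_nonneg (by linarith) (by linarith))
    _ = (1 - τ) * (m * D) * (u * (1 - κ) * (1 - κ / 4)) := by ring
    _ ≤ R * (u * (1 - κ) * (1 - κ / 4)) := mul_le_mul_of_nonneg_right h8 h11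
    _ ≤ R * (x * (1 - N * x)) := mul_le_mul_of_nonneg_left h6 hR0
    _ = R * x * (1 - N * x) := by ring

open Classical in
/-- the statement for sets of integers -/
theorem quarterZ {k : ℕ} (hk : 3 ≤ k) {K N : ℕ} (hK : 1 ≤ K) (hN : 1 ≤ N) {τ : ℝ} (hτ0 : 0 ≤ τ)
    (hτ1 : τ ≤ 1) (hreg : d k N ≤ (1 + τ) * d k (K * N)) (S : Finset ℤ) (hS : S.card = N)
    (w : ℤ → ℝ) (hw : ∀ x, 0 ≤ w x) :
    ∃ A ⊆ S, FreeIn k A ∧
      ((1 / 4 - τ / 4 - 3 / (4 * K)) * d k N) * ∑ x ∈ S, w x ≤ ∑ x ∈ A, w x := by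
  set m := K * N with hm
  obtain ⟨A₀, hA1, hA2, hA3⟩ := exists_opt (k := k) (by omega) m
  set Rg : ℕ := ∑ x ∈ S, x.natAbs with hRg
  obtain ⟨p, hp1, hp⟩ := Nat.exists_infinite_primes (4 * (m + 1) * K + 2 * Rg + 1)
  have : Fact p.Prime := ⟨hp⟩
  set L : ℕ := p / (4 * (m + 1)) with hL
  have hL4 : 4 * (m + 1) * L ≤ p := Nat.mul_div_le p (4 * (m + 1))
  have hA0 : A₀ ⊆ range (m + 1) := by
    intro a ha
    have := hA1 ha
    rw [mem_Icc] at this
    rw [mem_range]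
    omega
  have hdist : ∀ x ∈ S, ∀ y ∈ S, x ≠ y → (x : ZMod p) ≠ (y : ZMod p) := by
    intro x hx y hy hxy h
    rw [ZMod.intCast_eq_intCast_iff_dvd_sub] at h
    have h1 : x.natAbs ≤ Rg := single_le_sum (f := fun x : ℤ => x.natAbs) (fun _ _ => Nat.zero_le _) hx
    have h2 : y.natAbs ≤ Rg := single_le_sum (f := fun x : ℤ => x.natAbs) (fun _ _ => Nat.zero_le _) hy
    have h3 : y - x = 0 := by
      apply Int.eq_zero_of_abs_lt_dvd h
      rw [abs_lt]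
      omega
    exact hxy (by omega)
  obtain ⟨A, hAS, hAf, hsum⟩ := exists_pick (p := p) hk hL4 hA0 hA2 hdist w hw
  refine ⟨A, hAS, free_iff.2 hAf, le_trans ?_ hsum⟩
  apply mul_le_mul_of_nonneg_right _ (sum_nonneg fun x _ => hw x)
  have hm0 : (0 : ℝ) < m := by
    have : 0 < m := Nat.mul_pos hK hN
    exact_mod_cast this
  have hdm : (m : ℝ) * d k m = r k m := by
    unfold d
    field_simp
  have hK' : (1 : ℝ) ≤ K := by exact_mod_cast hK
  have hN' : (1 : ℝ) ≤ N := by exact_mod_cast hN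
  have hq : (0 : ℝ) < 4 * ((m : ℝ) + 1) := by positivity
  have hdN : 0 ≤ d k N := by unfold d; positivity
  rw [hA3, hS]
  refine arith (m := m) (K := K) hdN hN' hK' (by rw [hm]; push_cast; ring) ?_ ?_ ?_ hτ0 hτ1 ?_
    (Nat.cast_nonneg _)
  · have : 4 * (m + 1) * K ≤ p := by omega
    exact_mod_cast this
  · have h1 := Nat.lt_div_mul_add (a := p) (b := 4 * (m + 1)) (by omega)
    have h2 : (p : ℝ) < L * (4 * (m + 1)) + 4 * (m + 1) := by rw [hL]; exact_mod_cast h1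
    rw [sub_le_iff_le_add, div_le_iff₀ hq]
    linarith
  · rw [le_div_iff₀ hq, mul_comm]
    exact_mod_cast hL4
  · calc (m : ℝ) * d k N ≤ m * ((1 + τ) * d k m) := mul_le_mul_of_nonneg_left hreg hm0.le
      _ = (1 + τ) * (m * d k m) := by ring
      _ = (1 + τ) * r k m := by rw [hdm]

open Classical in
/-- regular numbers -/
theorem regular_numbers {k : ℕ} (hk : 3 ≤ k) {τ : ℝ} (h0 : 0 < τ) (h1 : τ ≤ 1) (K : ℕ) (hK : 1 ≤ K) :
    ∃ (C : ℝ) (E : Set ℕ),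
      (∀ x : ℕ, 2 ≤ x → ∑ N ∈ (Icc 1 x).filter (fun N => N ∈ E), (1 : ℝ) / N ≤
        C * √(Real.log x)) ∧
      ∀ N : ℕ, 1 ≤ N → N ∉ E → ∀ X : ℕ, N ≤ K * X → X ≤ K * N → ∀ Y : ℕ, N ≤ K * Y → Y ≤ K * N →
        d k Y ≤ (1 + τ) * d k X := by
  obtain ⟨m, hm⟩ := pow_unbounded_of_one_lt (2 * (8 / τ) * (K : ℝ)) (by norm_num : (1 : ℝ) < 2)
  obtain ⟨C, hC⟩ := bad_sqrt hk m (η := τ / 4) (by positivity)
  refine ⟨C, {N | Nat.log 2 N ∈ Bad k m (τ / 4)}, fun x hx => ?_, fun N hN hNE X hX1 hX2 Y hY1 hY2 => ?_⟩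
  · exact (sum_blocks _ (Bad k m (τ / 4)) (fun N hN => hN) x).trans (hC x hx)
  · have hreg := regular hk h0 h1 hN hNE (Λ := K) (by exact_mod_cast hK) hm.le
    exact (hreg.2 X (by exact_mod_cast hX1) (by exact_mod_cast hX2)).2 Y (by exact_mod_cast hY1)
      (by exact_mod_cast hY2)

open Classical in
/-- the main theorem -/
theorem quarter {k : ℕ} (hk : 3 ≤ k) {ε : ℝ} (h0 : 0 < ε) :
    ∃ (C : ℝ) (E : Set ℕ),
      (∀ x : ℕ, 2 ≤ x → ∑ N ∈ (Icc 1 x).filter (fun N => N ∈ E), (1 : ℝ) / N ≤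
        C * √(Real.log x)) ∧
      ∀ N : ℕ, 1 ≤ N → N ∉ E → ∀ (G : Type*) [AddCommGroup G],
        (∀ (n : ℕ) (x : G), n ≠ 0 → n • x = 0 → x = 0) → ∀ S : Finset G, S.card = N →
        ∀ w : G → ℝ, (∀ x, 0 ≤ w x) → ∃ A ⊆ S, FreeIn k A ∧
          ((1 / 4 - ε) * (r k N / N)) * ∑ x ∈ S, w x ≤ ∑ x ∈ A, w x := by
  set τ : ℝ := min ε 1 with hτ
  have hτ0 : 0 < τ := lt_min h0 one_pos
  have hτ1 : τ ≤ 1 := min_le_right _ _
  have hτε : τ ≤ ε := min_le_left _ _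
  set K : ℕ := ⌈1 / τ⌉₊ with hK
  have hK1 : 1 ≤ K := Nat.one_le_ceil_iff.2 (by positivity)
  have hKτ : 1 / τ ≤ K := Nat.le_ceil _
  obtain ⟨C, E, hE, hreg⟩ := regular_numbers hk hτ0 hτ1 K hK1
  refine ⟨C, E, hE, fun N hN hNE G _ htf S hS w hw => ?_⟩
  obtain ⟨φ, hadd, hinj⟩ := exists_hom htf S
  refine transfer (by omega) hadd hinj w hw fun w' hw' => ?_
  have hcard : (S.image φ).card = N := by
    rw [card_image_of_injOn (fun x hx y hy h => hinj x hx y hy h), hS]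
  have h2 : d k N ≤ (1 + τ) * d k (K * N) :=
    hreg N hN hNE (K * N) ((Nat.le_mul_of_pos_left N hK1).trans (Nat.le_mul_of_pos_left _ hK1)) le_rfl N
      (Nat.le_mul_of_pos_left N hK1) (Nat.le_mul_of_pos_left N hK1)
  obtain ⟨A, hAS, hAf, hsum⟩ := quarterZ hk hK1 hN hτ0.le hτ1 h2 (S.image φ) hcard w' hw'
  refine ⟨A, hAS, hAf, le_trans ?_ hsum⟩
  apply mul_le_mul_of_nonneg_right _ (sum_nonneg fun x _ => hw' x)
  show (1 / 4 - ε) * d k N ≤ _
  apply mul_le_mul_of_nonneg_right _ (d_pos hk hN).le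
  have hK0 : (0 : ℝ) < K := by exact_mod_cast hK1
  have h3 : 3 / (4 * (K : ℝ)) ≤ 3 / 4 * τ := by
    rw [div_le_iff₀ (by positivity)]
    rw [div_le_iff₀ hτ0] at hKτ
    nlinarith
  linarith

end Pool.Agent.H602.KS
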