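import Pool.Graph.R_seed8.W860.OB.Gap

/-!
# Sets of integers of small doubling are isomorphic to dense subsets of intervals
-/

set_option autoImplicit false

open Finset
open scoped Pointwise

namespace Pool.Agent.H602.KS

/-- `φ` is a Freiman isomorphism of order two on `S` -/
def Iso2 (S : Finset ℤ) (φ : ℤ → ℤ) : Prop :=
  ∀ a ∈ S, ∀ b ∈ S, ∀ c ∈ S, ∀ d ∈ S, a + b = c + d ↔ φ a + φ b = φ c + φ d

theorem Iso2.inj {S : Finset ℤ} {φ : ℤ → ℤ} (h : Iso2 S φ) {a b : ℤ} (ha : a ∈ S) (hb : b ∈ S)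
    (hab : φ a = φ b) : a = b := by
  have := (h a ha a ha b hb b hb).2 (by rw [hab])
  omega

theorem Iso2.card_image {S : Finset ℤ} {φ : ℤ → ℤ} (h : Iso2 S φ) :
    (S.image φ).card = S.card :=
  card_image_of_injOn fun _ ha _ hb hab => h.inj ha hb hab

theorem Iso2.card_sum {S : Finset ℤ} {φ : ℤ → ℤ} (h : Iso2 S φ) :
    (S.image φ + S.image φ).card ≤ (S + S).card := by
  classical
  have hch : ∀ z : ℤ, ∃ q : ℤ × ℤ, z ∈ S.image φ + S.image φ →
      q.1 ∈ S ∧ q.2 ∈ S ∧ φ q.1 + φ q.2 = z := by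
    intro z
    by_cases hz : z ∈ S.image φ + S.image φ
    · obtain ⟨x, hx, y, hy, hxy⟩ := mem_add.1 hz
      obtain ⟨a, ha, rfl⟩ := mem_image.1 hx
      obtain ⟨b, hb, rfl⟩ := mem_image.1 hy
      exact ⟨(a, b), fun _ => ⟨ha, hb, hxy⟩⟩
    · exact ⟨(0, 0), fun h' => absurd h' hz⟩
  choose q hq using hch
  refine card_le_card_of_injOn (fun z => (q z).1 + (q z).2) ?_ ?_
  · intro z hz
    obtain ⟨h1, h2, -⟩ := hq z hz
    exact add_mem_add h1 h2
  · intro z hz z' hz' he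
    obtain ⟨h1, h2, h3⟩ := hq z hz
    obtain ⟨h1', h2', h3'⟩ := hq z' hz'
    have := (h _ h1 _ h2 _ h1' _ h2').1 he
    rw [h3, h3'] at this
    exact this

theorem Iso2.comp {S : Finset ℤ} {φ ψ : ℤ → ℤ} (h : Iso2 S φ) (h' : Iso2 (S.image φ) ψ) :
    Iso2 S (ψ ∘ φ) := by
  intro a ha b hb c hc d hd
  rw [h a ha b hb c hc d hd]
  exact h' _ (mem_image_of_mem _ ha) _ (mem_image_of_mem _ hb) _ (mem_image_of_mem _ hc) _
    (mem_image_of_mem _ hd)

/-- the same box -/
theorem same_box {p Q x y : ℕ} (h : x * Q / p = y * Q / p) (hp : 0 < p) :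
    |(x : ℤ) - y| * Q < p := by
  have h1 := Nat.div_add_mod (x * Q) p
  have h2 := Nat.div_add_mod (y * Q) p
  have h3 := Nat.mod_lt (x * Q) hp
  have h4 := Nat.mod_lt (y * Q) hp
  rw [h] at h1
  have e : |(x : ℤ) - y| * Q = |((x * Q : ℕ) : ℤ) - ((y * Q : ℕ) : ℤ)| := by
    push_cast
    rw [← sub_mul, abs_mul, Nat.abs_cast]
  rw [e, abs_lt]
  constructor <;> omega

/-- the size of the boxes -/
def side (r L : ℕ) : ℕ := 32 * r * (2 * L + 1)

theorem exists_mult {p : ℕ} (hp : p.Prime) {r : ℕ} (v : Fin r → ℤ) (L : Fin r → ℕ) (T : Finset ℤ)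
    (hbox : (∏ i, side r (L i)) * 33 ^ T.card < p) :
    ∃ l : ℤ, ¬ (p : ℤ) ∣ l ∧ (∀ i, ∃ e : ℤ, (p : ℤ) ∣ e - l * v i ∧ |e| * side r (L i) < p) ∧
      ∀ t ∈ T, ∃ e : ℤ, (p : ℤ) ∣ e - l * t ∧ |e| * 33 < p := by
  classical
  have hp0 : 0 < p := hp.pos
  have hpz : (0 : ℤ) < p := by exact_mod_cast hp0
  let val : ℕ → ℤ → ℕ := fun l g => ((l : ℤ) * g % p).toNat
  have hval : ∀ l g, (val l g : ℤ) = (l : ℤ) * g % p := fun l g =>
    Int.toNat_of_nonneg (Int.emod_nonneg _ hpz.ne')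
  have hvlt : ∀ l g, val l g < p := by
    intro l g
    have := Int.emod_lt_of_pos ((l : ℤ) * g) hpz
    have h2 := hval l g
    omega
  let F : ℕ → (Fin r → ℕ) × (T → ℕ) := fun l =>
    (fun i => val l (v i) * side r (L i) / p, fun t => val l t * 33 / p)
  let B : Finset ((Fin r → ℕ) × (T → ℕ)) :=
    (Fintype.piFinset fun i => range (side r (L i))) ×ˢ (Fintype.piFinset fun _ : T => range 33)
  have hcard : B.card < (range p).card := by
    simp only [B, card_product, Fintype.card_piFinset, card_range, prod_const, card_univ,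
      Fintype.card_coe]
    exact hbox
  have hmaps : ∀ l ∈ range p, F l ∈ B := by
    intro l _
    simp only [B, F, mem_product, Fintype.mem_piFinset, mem_range]
    constructor
    · intro i
      have hs : 0 < side r (L i) := by
        unfold side
        have : 0 < r := lt_of_le_of_lt (Nat.zero_le _) i.2
        positivity
      rw [Nat.div_lt_iff_lt_mul hp0, mul_comm]
      exact Nat.mul_lt_mul_of_pos_left (hvlt l (v i)) hs
    · intro t
      rw [Nat.div_lt_iff_lt_mul hp0]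
      have := hvlt l t
      omega
  obtain ⟨l₁, h₁, l₂, h₂, hne, heq⟩ := exists_ne_map_eq_of_card_lt_of_maps_to hcard hmaps
  rw [mem_range] at h₁ h₂
  simp only [F, Prod.mk.injEq] at heq
  obtain ⟨he1, he2⟩ := heq
  have hdv : ∀ g : ℤ, (p : ℤ) ∣ ((val l₁ g : ℤ) - val l₂ g) - ((l₁ : ℤ) - l₂) * g := by
    intro g
    rw [hval, hval]
    have h3 := Int.emod_add_mul_ediv ((l₁ : ℤ) * g) p
    have h4 := Int.emod_add_mul_ediv ((l₂ : ℤ) * g) p
    refine ⟨(l₂ : ℤ) * g / p - (l₁ : ℤ) * g / p, ?_⟩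
    linear_combination h3 - h4
  refine ⟨(l₁ : ℤ) - l₂, ?_, fun i => ⟨(val l₁ (v i) : ℤ) - val l₂ (v i), hdv _, ?_⟩,
    fun t ht => ⟨(val l₁ t : ℤ) - val l₂ t, hdv _, ?_⟩⟩
  · intro hdvd
    have h5 : (l₁ : ℤ) - l₂ = 0 := by
      apply Int.eq_zero_of_abs_lt_dvd hdvd
      rw [abs_lt]
      omega
    exact hne (by omega)
  · exact same_box (congrFun he1 i) hp0
  · have := same_box (congrFun he2 ⟨t, ht⟩) hp0
    exact_mod_cast this

/-- one step: a smaller copy -/
theorem shrink {p : ℕ} (hp : p.Prime) {S : Finset ℤ} {l : ℕ} (hS : ∀ x ∈ S, 0 ≤ x ∧ x ≤ l)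
    (hpl : 2 * l < p) {r : ℕ} (v : Fin r → ℤ) (L : Fin r → ℕ) (T : Finset ℤ)
    (hcov : ∀ a ∈ S, ∃ t ∈ T, ∃ c : Fin r → ℤ, (∀ i, |c i| ≤ L i) ∧ a = t + ∑ i, c i • v i)
    (hbox : (∏ i, side r (L i)) * 33 ^ T.card < p) :
    ∃ ψ : ℤ → ℤ, Iso2 S ψ ∧ ∀ a ∈ S, 16 * |ψ a| < p := by
  classical
  obtain ⟨m, hm, hv, ht⟩ := exists_mult hp v L T hbox
  choose e he1 he2 using hv
  have hch : ∀ a : ℤ, ∃ y : ℤ, a ∈ S → (p : ℤ) ∣ y - m * a ∧ 16 * |y| < p := by
    intro a
    by_cases ha : a ∈ S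
    · obtain ⟨t, htT, c, hc, hac⟩ := hcov a ha
      obtain ⟨f, hf1, hf2⟩ := ht t htT
      refine ⟨f + ∑ i, c i * e i, fun _ => ⟨?_, ?_⟩⟩
      · have h1 : f + ∑ i, c i * e i - m * a = (f - m * t) + ∑ i, c i * (e i - m * v i) := by
          rw [hac]
          simp only [smul_eq_mul, mul_sub, sum_sub_distrib, mul_add, mul_sum]
          have : ∑ i, m * (c i * v i) = ∑ i, c i * (m * v i) :=
            sum_congr rfl fun i _ => by ring
          rw [this]
          ring
        rw [h1]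
        exact dvd_add hf1 (dvd_sum fun i _ => Dvd.dvd.mul_left (he1 i) _)
      · have h2 : |∑ i, c i * e i| ≤ ∑ i, (L i : ℤ) * |e i| := by
          refine (abs_sum_le_sum_abs _ _).trans (sum_le_sum fun i _ => ?_)
          rw [abs_mul]
          exact mul_le_mul_of_nonneg_right (hc i) (abs_nonneg _)
        have h3 : 64 * ∑ i, (L i : ℤ) * |e i| ≤ p := by
          rcases Nat.eq_zero_or_pos r with h0 | h0
          · subst h0
            simp
          · have h4 : ∀ i ∈ (univ : Finset (Fin r)), 64 * (r : ℤ) * ((L i : ℤ) * |e i|) ≤ p := by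
              intro i _
              have h5 := he2 i
              unfold side at h5
              push_cast at h5
              have h6 : 0 ≤ |e i| * (32 * (r : ℤ)) := by positivity
              nlinarith
            have h7 := sum_le_sum h4
            rw [← mul_sum, sum_const, card_univ, Fintype.card_fin, nsmul_eq_mul] at h7
            have h8 : (0 : ℤ) < r := by exact_mod_cast h0
            have h9 : (r : ℤ) * (64 * ∑ i, (L i : ℤ) * |e i|) ≤ r * p := by
              calc (r : ℤ) * (64 * ∑ i, (L i : ℤ) * |e i|) = 64 * (r : ℤ) * ∑ i, (L i : ℤ) * |e i| := by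
                    ring
                _ ≤ r * p := h7
            exact le_of_mul_le_mul_left h9 h8
        have h10 := abs_add_le f (∑ i, c i * e i)
        omega
    · exact ⟨0, fun h => absurd h ha⟩
  choose ψ hψ using hch
  have hpz : (0 : ℤ) < p := by exact_mod_cast hp.pos
  refine ⟨ψ, ?_, fun a ha => (hψ a ha).2⟩
  intro a ha b hb c hc d hd
  obtain ⟨ka, hka⟩ := (hψ a ha).1
  obtain ⟨kb, hkb⟩ := (hψ b hb).1
  obtain ⟨kc, hkc⟩ := (hψ c hc).1
  obtain ⟨kd, hkd⟩ := (hψ d hd).1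
  have e1 : ψ a + ψ b - ψ c - ψ d = m * (a + b - c - d) + p * (ka + kb - kc - kd) := by
    linear_combination hka + hkb - hkc - hkd
  constructor
  · intro h
    have h1 : (p : ℤ) ∣ ψ a + ψ b - ψ c - ψ d := by
      refine ⟨ka + kb - kc - kd, ?_⟩
      rw [e1, show a + b - c - d = 0 by omega]
      ring
    have h2 : ψ a + ψ b - ψ c - ψ d = 0 := by
      apply Int.eq_zero_of_abs_lt_dvd h1
      have ba := (hψ a ha).2
      have bb := (hψ b hb).2
      have bc := (hψ c hc).2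
      have bd := (hψ d hd).2
      rw [abs_lt]
      have := abs_lt.1 (show |ψ a| < p by omega)
      have xa := abs_le.1 (le_refl |ψ a|)
      have xb := abs_le.1 (le_refl |ψ b|)
      have xc := abs_le.1 (le_refl |ψ c|)
      have xd := abs_le.1 (le_refl |ψ d|)
      constructor <;> omega
    omega
  · intro h
    have h1 : (p : ℤ) ∣ m * (a + b - c - d) := by
      refine ⟨-(ka + kb - kc - kd), ?_⟩
      linear_combination (-1 : ℤ) * e1 + h
    have h2 : (p : ℤ) ∣ a + b - c - d := by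
      rcases (Nat.prime_iff_prime_int.1 hp).dvd_or_dvd h1 with h3 | h3
      · exact absurd h3 hm
      · exact h3
    have h3 : a + b - c - d = 0 := by
      apply Int.eq_zero_of_abs_lt_dvd h2
      have := hS a ha
      have := hS b hb
      have := hS c hc
      have := hS d hd
      rw [abs_lt]
      constructor <;> omega
    omega

/-- the constants in the covering theorem -/
noncomputable def vol (K : ℝ) : ℝ := Real.exp (4000000 * Real.log (2 * K) ^ 2)

/-- Freiman's theorem in the integers -/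
theorem cover {K : ℝ} {S : Finset ℤ} (hS : S.Nonempty) (hK : ((S + S).card : ℝ) ≤ K * S.card) :
    ∃ (r : ℕ) (v : Fin r → ℤ) (L : Fin r → ℕ) (T : Finset ℤ),
      (r : ℝ) ≤ 30000 * Real.log (2 * K) ∧
      ((∏ i, (2 * L i + 1) : ℕ) : ℝ) ≤ vol K * S.card ∧ (T.card : ℝ) ≤ (2 * K) ^ (30000 : ℝ) ∧
      ∀ a ∈ S, ∃ t ∈ T, ∃ c : Fin r → ℤ, (∀ i, |c i| ≤ L i) ∧ a = t + ∑ i, c i • v i := by
  classical
  obtain ⟨r, v, L, H, T, hr, hH, hvol, hT, hcov⟩ :=
    W860.OB.gap_cover (ε₀ := 1) hS hK one_pos le_rfl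
  have hHbot : ∀ h ∈ H, h = 0 := by
    intro h hh
    have h1 : Nat.card H • (⟨h, hh⟩ : H) = 0 := card_nsmul_eq_zero'
    have h2 : Nat.card H • h = 0 := by
      have h3 := congrArg H.subtype h1
      rw [map_nsmul, map_zero] at h3
      exact h3
    rw [nsmul_eq_mul] at h2
    rcases mul_eq_zero.1 h2 with h5 | h5
    · exact absurd h5 (by exact_mod_cast Nat.card_pos.ne')
    · exact h5
  refine ⟨r, v, L, T, by simpa using hr, ?_, by simpa using hT, fun a ha => ?_⟩
  · have h1 : (1 : ℝ) ≤ Nat.card H := by exact_mod_cast Nat.card_pos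
    have h2 : ((∏ i, (2 * L i + 1) : ℕ) : ℝ) ≤ ((∏ i, (2 * L i + 1) : ℕ) : ℝ) * (Nat.card H : ℝ) :=
      le_mul_of_one_le_right (Nat.cast_nonneg _) h1
    refine h2.trans (hvol.trans (le_of_eq ?_))
    unfold vol
    norm_num
  · obtain ⟨t, ht, c, hc, h, hh, hac⟩ := hcov a ha
    rw [hHbot h hh, add_zero] at hac
    exact ⟨t, ht, c, hc, hac⟩

end Pool.Agent.H602.KS
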