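import Pool.Agent.H602.KS.Compress
import Pool.Agent.H602.KS.Quarter

/-!
# Progression-free subsets of sets of small doubling
-/

set_option autoImplicit false

open Finset
open scoped Pointwise

namespace Pool.Agent.H602.KS

open Pool.Agent.H617R3.AP

/-- Freiman isomorphisms of order two to the integers -/
def IsoG {G : Type*} [AddCommGroup G] (S : Finset G) (φ : G → ℤ) : Prop :=
  ∀ a ∈ S, ∀ b ∈ S, ∀ c ∈ S, ∀ d ∈ S, a + b = c + d ↔ φ a + φ b = φ c + φ d

section iso
variable {G : Type*} [AddCommGroup G]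

theorem IsoG.inj' {S : Finset G} {φ : G → ℤ}
    (htf : ∀ (n : ℕ) (x : G), n ≠ 0 → n • x = 0 → x = 0) (h : IsoG S φ) {a b : G} (ha : a ∈ S)
    (hb : b ∈ S) (hab : φ a = φ b) : a = b := by
  have h1 := (h a ha a ha b hb b hb).2 (by rw [hab])
  have h2 : (2 : ℕ) • (a - b) = 0 := by
    rw [smul_sub, two_nsmul, two_nsmul, h1, sub_self]
  exact sub_eq_zero.1 (htf 2 _ (by norm_num) h2)

theorem IsoG.mono {S T : Finset G} {φ : G → ℤ} (h : IsoG S φ) (hT : T ⊆ S) : IsoG T φ :=
  fun a ha b hb c hc d hd => h a (hT ha) b (hT hb) c (hT hc) d (hT hd)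

/-- images of progressions -/
theorem IsoG.lin {S : Finset G} {φ : G → ℤ} (h : IsoG S φ) {a d : G} {k : ℕ}
    (hall : ∀ i < k, a + i • d ∈ S) : ∀ i < k, φ (a + i • d) = φ a + i • (φ (a + d) - φ a) := by
  intro i
  induction i using Nat.strong_induction_on with
  | _ i ih =>
    intro hi
    match i, ih, hi with
    | 0, _, _ => simp
    | 1, _, _ => simp
    | (j + 2), ih, hi =>
      have h1 := ih j (by omega) (by omega)
      have h2 := ih (j + 1) (by omega) (by omega)
      have h3 : (a + j • d) + (a + (j + 2) • d) = (a + (j + 1) • d) + (a + (j + 1) • d) := by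
        rw [add_nsmul d j 2, add_nsmul d j 1, two_nsmul, one_nsmul]
        abel
      have h4 := (h _ (hall j (by omega)) _ (hall (j + 2) hi) _ (hall (j + 1) (by omega)) _
        (hall (j + 1) (by omega))).1 h3
      rw [h1, h2] at h4
      simp only [nsmul_eq_mul] at h4 ⊢
      push_cast at h4 ⊢
      linarith

theorem IsoG.free_preimage {S : Finset G} {φ : G → ℤ}
    (htf : ∀ (n : ℕ) (x : G), n ≠ 0 → n • x = 0 → x = 0) (h : IsoG S φ) {k : ℕ} (hk : 2 ≤ k)
    {A' : Finset ℤ} (hfree : FreeIn k A') [DecidablePred fun x => φ x ∈ A'] :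
    FreeIn k (S.filter (fun x => φ x ∈ A')) := by
  intro a d hd hall
  have hm : ∀ i < k, a + i • d ∈ S ∧ φ (a + i • d) ∈ A' := fun i hi => mem_filter.1 (hall i hi)
  have ha : a ∈ S := by
    have := (hm 0 (by omega)).1
    simpa using this
  have had : a + d ∈ S := by
    have := (hm 1 (by omega)).1
    simpa using this
  have hlin := h.lin (fun i hi => (hm i hi).1)
  refine hfree (φ a) (φ (a + d) - φ a) ?_ fun i hi => ?_
  · intro h0
    have h1 := h.inj' htf had ha (by omega)
    exact hd (by rwa [add_eq_left] at h1)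
  · rw [← hlin i hi]
    exact (hm i hi).2

theorem IsoG.free_image [DecidableEq G] {S : Finset G} {φ : G → ℤ} (h : IsoG S φ) {k : ℕ} (hk : 2 ≤ k)
    {A : Finset G} (hAS : A ⊆ S) (hfree : FreeIn k A) : FreeIn k (A.image φ) := by
  intro b e he hall
  have hch : ∀ i : ℕ, ∃ a : G, i < k → a ∈ A ∧ φ a = b + i • e := by
    intro i
    by_cases hi : i < k
    · obtain ⟨a, ha, hab⟩ := mem_image.1 (hall i hi)
      exact ⟨a, fun _ => ⟨ha, hab⟩⟩
    · exact ⟨0, fun h' => absurd h' hi⟩
  choose a ha using hch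
  have hS : ∀ i < k, a i ∈ S := fun i hi => hAS (ha i hi).1
  have hstep : ∀ i, i + 2 < k → a i + a (i + 2) = a (i + 1) + a (i + 1) := by
    intro i hi
    refine (h _ (hS i (by omega)) _ (hS (i + 2) hi) _ (hS (i + 1) (by omega)) _
      (hS (i + 1) (by omega))).2 ?_
    rw [(ha i (by omega)).2, (ha (i + 2) hi).2, (ha (i + 1) (by omega)).2]
    simp only [nsmul_eq_mul]
    push_cast
    ring
  have hlin : ∀ i, i < k → a i = a 0 + i • (a 1 - a 0) := by
    intro i
    induction i using Nat.strong_induction_on with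
    | _ i ih =>
      intro hi
      match i, ih, hi with
      | 0, _, _ => simp
      | 1, _, _ => simp
      | (j + 2), ih, hi =>
        have h1 := ih j (by omega) (by omega)
        have h2 := ih (j + 1) (by omega) (by omega)
        have h3 := hstep j hi
        have h4 : a (j + 2) = a (j + 1) + a (j + 1) - a j := by
          rw [← h3]
          abel
        rw [h4, h1, h2, add_nsmul (a 1 - a 0) j 2, add_nsmul (a 1 - a 0) j 1, two_nsmul, one_nsmul]
        abel
  refine hfree (a 0) (a 1 - a 0) ?_ fun i hi => ?_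
  · intro h0
    have h1 := (ha 1 (by omega)).2
    have h2 := (ha 0 (by omega)).2
    rw [sub_eq_zero.1 h0, h2] at h1
    simp at h1
    exact he h1
  · rw [← hlin i hi]
    exact (ha i hi).1

/-- **Sets of small doubling in torsion-free groups are isomorphic to dense subsets of intervals.** -/
theorem compressG [DecidableEq G] (htf : ∀ (n : ℕ) (x : G), n ≠ 0 → n • x = 0 → x = 0) {K : ℝ}
    {S : Finset G} (hS : S.Nonempty) (hK : ((S + S).card : ℝ) ≤ K * S.card) :
    ∃ φ : G → ℤ, IsoG S φ ∧ ∀ a ∈ S, 0 ≤ φ a ∧ (φ a : ℝ) < len K * S.card := by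
  classical
  obtain ⟨θ, hadd, hinj⟩ := exists_hom htf (S ∪ (S + S))
  have hcl : ∀ x ∈ S, x ∈ AddSubgroup.closure ((S ∪ (S + S) : Finset G) : Set G) := fun x hx =>
    AddSubgroup.subset_closure (mem_coe.2 (mem_union_left _ hx))
  have hθadd : ∀ a ∈ S, ∀ b ∈ S, θ (a + b) = θ a + θ b := fun a ha b hb =>
    hadd a (hcl a ha) b (hcl b hb)
  have hθ : IsoG S θ := by
    intro a ha b hb c hc d hd
    rw [← hθadd a ha b hb, ← hθadd c hc d hd]
    constructor
    · intro h
      rw [h]
    · intro h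
      exact hinj _ (mem_union_right _ (add_mem_add ha hb)) _
        (mem_union_right _ (add_mem_add hc hd)) h
  have hc' : (S.image θ).card = S.card :=
    card_image_of_injOn fun a ha b hb hab => hinj a (mem_union_left _ ha) b (mem_union_left _ hb) hab
  have hK' : ((S.image θ + S.image θ).card : ℝ) ≤ K * (S.image θ).card := by
    rw [hc']
    refine le_trans ?_ hK
    have h1 : S.image θ + S.image θ ⊆ (S + S).image θ := by
      intro z hz
      obtain ⟨x, hx, y, hy, rfl⟩ := mem_add.1 hz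
      obtain ⟨a, ha, rfl⟩ := mem_image.1 hx
      obtain ⟨b, hb, rfl⟩ := mem_image.1 hy
      rw [← hθadd a ha b hb]
      exact mem_image_of_mem _ (add_mem_add ha hb)
    exact_mod_cast (card_le_card h1).trans card_image_le
  obtain ⟨φ, hφ, hb⟩ := compress (hS.image θ) hK'
  refine ⟨fun x => φ (θ x), ?_, fun a ha => ?_⟩
  · intro a ha b hb' c hc d hd
    rw [hθ a ha b hb' c hc d hd]
    exact hφ _ (mem_image_of_mem _ ha) _ (mem_image_of_mem _ hb') _ (mem_image_of_mem _ hc) _
      (mem_image_of_mem _ hd)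
  · have := hb (θ a) (mem_image_of_mem _ ha)
    rw [hc'] at this
    exact this

end iso

/-- a set of integers in which a translate of a progression-free set of natural numbers contains all -/
theorem free_of_nat {k : ℕ} (hk : 1 ≤ k) {A₀ : Finset ℕ} (hA : APFree k A₀) {A : Finset ℤ} {s : ℤ}
    (h : ∀ x ∈ A, ∃ n ∈ A₀, (n : ℤ) = x + s) : FreeIn k A := by
  intro a d hd hall
  rcases lt_or_gt_of_ne hd with h0 | h0
  · -- negative difference
    obtain ⟨n, hn, hn2⟩ := h _ (hall (k - 1) (by omega))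
    refine hA n d.natAbs (by omega) fun i hi => ?_
    obtain ⟨n', hn', hn2'⟩ := h _ (hall (k - 1 - i) (by omega))
    have e : n + i * d.natAbs = n' := by
      have h1 : ((n + i * d.natAbs : ℕ) : ℤ) = n' := by
        push_cast
        rw [hn2, hn2', abs_of_neg h0]
        simp only [nsmul_eq_mul]
        rw [Nat.cast_sub (by omega : i ≤ k - 1)]
        ring
      exact_mod_cast h1
    rw [e]
    exact hn'
  · obtain ⟨n, hn, hn2⟩ := h _ (hall 0 (by omega))
    refine hA n d.natAbs (by omega) fun i hi => ?_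
    obtain ⟨n', hn', hn2'⟩ := h _ (hall i hi)
    have e : n + i * d.natAbs = n' := by
      have h1 : ((n + i * d.natAbs : ℕ) : ℤ) = n' := by
        push_cast
        rw [hn2, hn2', abs_of_pos h0]
        simp only [nsmul_eq_mul]
        push_cast
        ring
      exact_mod_cast h1
    rw [e]
    exact hn'

/-- random translates of an extremal set -/
theorem translate {k : ℕ} (hk : 1 ≤ k) {m M : ℕ} (hm : m ≤ M) {T : Finset ℤ}
    (hT : ∀ x ∈ T, 0 ≤ x ∧ x < m) (w : ℤ → ℝ) (hw : ∀ x, 0 ≤ w x) :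
    ∃ A ⊆ T, FreeIn k A ∧ ((r k M : ℝ) - 2 * r k m) * ∑ x ∈ T, w x ≤
      ((M : ℝ) - m + 1) * ∑ x ∈ A, w x := by
  classical
  obtain ⟨A₀, hA1, hA2, hA3⟩ := exists_opt (k := k) hk M
  set A : ℕ → Finset ℤ := fun t => T.filter (fun x => (x + 1 + t).toNat ∈ A₀) with hA
  have hfree : ∀ t, FreeIn k (A t) := by
    intro t
    refine free_of_nat hk hA2 (s := 1 + t) fun x hx => ?_
    rw [hA, mem_filter] at hx
    refine ⟨_, hx.2, ?_⟩
    have := hT x hx.1
    omega
  by_contra hcon
  push Not at hcon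
  have h1 : ∀ t ∈ range (M - m + 1), ((M : ℝ) - m + 1) * ∑ x ∈ A t, w x <
      ((r k M : ℝ) - 2 * r k m) * ∑ x ∈ T, w x := fun t _ =>
    hcon (A t) (filter_subset _ _) (hfree t)
  have h2 := sum_lt_sum_of_nonempty (s := range (M - m + 1)) (by simp) h1
  rw [sum_const, card_range, nsmul_eq_mul, ← mul_sum] at h2
  have hcast : (((M - m + 1 : ℕ)) : ℝ) = (M : ℝ) - m + 1 := by
    push_cast [Nat.cast_sub hm]
    ring
  rw [hcast] at h2
  have hpos : (0 : ℝ) < (M : ℝ) - m + 1 := by
    rw [← hcast]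
    positivity
  have h3 := lt_of_mul_lt_mul_left h2 hpos.le
  have h4 : ∑ t ∈ range (M - m + 1), ∑ x ∈ A t, w x =
      ∑ x ∈ T, (((range (M - m + 1)).filter (fun t : ℕ => (x + 1 + t).toNat ∈ A₀)).card : ℝ) * w x := by
    have : ∀ t ∈ range (M - m + 1), ∑ x ∈ A t, w x =
        ∑ x ∈ T, if (x + 1 + t).toNat ∈ A₀ then w x else 0 := by
      intro t _
      rw [hA, sum_filter]
    rw [sum_congr rfl this, sum_comm]
    refine sum_congr rfl fun x _ => ?_
    rw [← sum_filter, sum_const, nsmul_eq_mul]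
  rw [h4, mul_sum] at h3
  have h5 : ∀ x ∈ T, ((r k M : ℝ) - 2 * r k m) * w x ≤
      (((range (M - m + 1)).filter (fun t : ℕ => (x + 1 + t).toNat ∈ A₀)).card : ℝ) * w x := by
    intro x hx
    apply mul_le_mul_of_nonneg_right _ (hw x)
    obtain ⟨hx0, hxm⟩ := hT x hx
    obtain ⟨y, rfl⟩ : ∃ y : ℕ, x = y := ⟨x.toNat, by omega⟩
    have hym : y < m := by omega
    -- the three parts of the extremal set
    have hsub : A₀ ⊆ ((range (M - m + 1)).filter (fun t : ℕ => ((y : ℤ) + 1 + t).toNat ∈ A₀)).image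
        (fun t => y + 1 + t) ∪ (A₀.filter (fun n => 0 < n ∧ n ≤ y ∧ n % 1 = 0) ∪
          A₀.filter (fun n => y + 1 + (M - m) < n ∧ n ≤ M ∧ n % 1 = 0)) := by
      intro n hn
      have hn2 := mem_Icc.1 (hA1 hn)
      simp only [mem_union, mem_image, mem_filter, mem_range]
      by_cases h6 : n ≤ y
      · exact Or.inr (Or.inl ⟨hn, by omega, h6, Nat.mod_one n⟩)
      · by_cases h7 : y + 1 + (M - m) < n
        · exact Or.inr (Or.inr ⟨hn, h7, hn2.2, Nat.mod_one n⟩)
        · refine Or.inl ⟨n - (y + 1), ⟨by omega, ?_⟩, by omega⟩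
          have : ((y : ℤ) + 1 + ((n - (y + 1) : ℕ) : ℤ)).toNat = n := by omega
          rw [this]
          exact hn
    have hc := card_le_card hsub
    have hc1 := card_union_le (((range (M - m + 1)).filter
      (fun t : ℕ => ((y : ℤ) + 1 + t).toNat ∈ A₀)).image (fun t => y + 1 + t))
      (A₀.filter (fun n => 0 < n ∧ n ≤ y ∧ n % 1 = 0) ∪
          A₀.filter (fun n => y + 1 + (M - m) < n ∧ n ≤ M ∧ n % 1 = 0))
    have hc2 := card_union_le (A₀.filter (fun n => 0 < n ∧ n ≤ y ∧ n % 1 = 0))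
      (A₀.filter (fun n => y + 1 + (M - m) < n ∧ n ≤ M ∧ n % 1 = 0))
    have hc3 : (((range (M - m + 1)).filter (fun t : ℕ => ((y : ℤ) + 1 + t).toNat ∈ A₀)).image
      (fun t => y + 1 + t)).card ≤ _ := card_image_le
    have hc4 : (A₀.filter (fun n => 0 < n ∧ n ≤ y ∧ n % 1 = 0)).card ≤ r k m :=
      (card_class_le hk hA2 le_rfl 0 0 y).trans (r_mono (by simp; omega))
    have hc5 : (A₀.filter (fun n => y + 1 + (M - m) < n ∧ n ≤ M ∧ n % 1 = 0)).card ≤ r k m :=
      (card_class_le hk hA2 le_rfl 0 (y + 1 + (M - m)) M).trans (r_mono (by simp; omega))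
    have hfin : r k M ≤ ((range (M - m + 1)).filter
        (fun t : ℕ => ((y : ℤ) + 1 + t).toNat ∈ A₀)).card + 2 * r k m := by omega
    have : (r k M : ℝ) ≤ (((range (M - m + 1)).filter
        (fun t : ℕ => ((y : ℤ) + 1 + t).toNat ∈ A₀)).card : ℝ) + 2 * r k m := by exact_mod_cast hfin
    linarith
  have h6 := sum_le_sum h5
  linarith

end Pool.Agent.H602.KS
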